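import Mathlib

/-! Projective dimension of quotients by permutable regular sequences. -/

namespace Pool.Agent.Lib.MP_a29b63_ag

universe u

open CategoryTheory Abelian

section abstract

variable {R : Type u} [CommRing R]

lemma shortExact_of {M N L : Type u} [AddCommGroup M] [AddCommGroup N] [AddCommGroup L]
    [Module R M] [Module R N] [Module R L] (f : M →ₗ[R] N) (g : N →ₗ[R] L)
    (hfg : Function.Exact f g) (hf : Function.Injective f) (hg : Function.Surjective g) :
    (ModuleCat.shortComplexOfCompEqZero f g hfg.linearMap_comp_eq_zero).ShortExact :=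
  ModuleCat.shortComplex_shortExact _ hfg hf hg

lemma lt_succ_of_smul {M N : Type u} [AddCommGroup M] [AddCommGroup N]
    [Module R M] [Module R N] (x : R) (g : M →ₗ[R] N)
    (hfg : Function.Exact (LinearMap.lsmul R M x) g)
    (hf : Function.Injective (LinearMap.lsmul R M x)) (hg : Function.Surjective g) (d : ℕ)
    (h : HasProjectiveDimensionLT (ModuleCat.of R M) d) :
    HasProjectiveDimensionLT (ModuleCat.of R N) (d + 1) :=
  (shortExact_of _ _ hfg hf hg).hasProjectiveDimensionLT_X₃ d h
    (hasProjectiveDimensionLT_of_ge (ModuleCat.of R M) d (d + 1) (Nat.le_succ d))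

lemma ext_succ_of_smul {M N : Type u} [AddCommGroup M] [AddCommGroup N]
    [Module R M] [Module R N] (x : R) (g : M →ₗ[R] N)
    (hfg : Function.Exact (LinearMap.lsmul R M x) g)
    (hf : Function.Injective (LinearMap.lsmul R M x)) (hg : Function.Surjective g) (d : ℕ)
    (L : ModuleCat.{u} R) (hL : ∀ l : L, x • l = 0)
    (h : ∃ e : Ext (ModuleCat.of R M) L d, e ≠ 0) :
    ∃ e : Ext (ModuleCat.of R N) L (d + 1), e ≠ 0 := by
  obtain ⟨e, he⟩ := h
  have hS := shortExact_of _ _ hfg hf hg
  refine ⟨hS.extClass.comp e (add_comm 1 d), fun h0 => he ?_⟩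
  obtain ⟨x₂, hx₂⟩ := Ext.contravariant_sequence_exact₁ hS L e (add_comm 1 d) h0
  have hf' : (ModuleCat.shortComplexOfCompEqZero (LinearMap.lsmul R M x) g
      hfg.linearMap_comp_eq_zero).f = x • 𝟙 (ModuleCat.of R M) := rfl
  have hx : x • (𝟙 L) = 0 := by
    ext l
    exact hL l
  rw [← hx₂, hf', Ext.mk₀_smul, Ext.smul_comp, Ext.mk₀_id_comp, Ext.smul_eq_comp_mk₀, hx,
    Ext.mk₀_zero, Ext.comp_zero]

variable {σ : Type*} [DecidableEq σ] (r : σ → R)

/-- the ideal generated by the `r w`, `w ∈ S` -/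
def idl (S : Finset σ) : Ideal R := Ideal.span (r '' (S : Set σ))

lemma mem_idl {S : Finset σ} {w : σ} (hw : w ∈ S) : r w ∈ idl r S :=
  Ideal.subset_span ⟨w, hw, rfl⟩

lemma idl_mono {S T : Finset σ} (h : S ⊆ T) : idl r S ≤ idl r T :=
  Ideal.span_mono (Set.image_mono h)

lemma idl_insert (S : Finset σ) (w : σ) :
    idl r (insert w S) = Ideal.span {r w} ⊔ idl r S := by
  simp only [idl, Finset.coe_insert, Set.image_insert_eq]
  exact Ideal.span_insert _ _

lemma exact_insert (S : Finset σ) (w : σ) :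
    Function.Exact (LinearMap.lsmul R (R ⧸ idl r S) (r w))
      (Submodule.mapQ (idl r S) (idl r (insert w S)) LinearMap.id
        (idl_mono r (Finset.subset_insert w S))) := by
  intro y
  obtain ⟨p, rfl⟩ := Submodule.Quotient.mk_surjective _ y
  simp only [Submodule.mapQ_apply, LinearMap.id_coe, id_eq, Submodule.Quotient.mk_eq_zero,
    Set.mem_range, LinearMap.lsmul_apply]
  rw [idl_insert, Ideal.mem_span_singleton_sup]
  constructor
  · rintro ⟨a, b, hb, rfl⟩
    refine ⟨Submodule.Quotient.mk a, ?_⟩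
    rw [← Submodule.Quotient.mk_smul, Submodule.Quotient.eq]
    have : r w • a - (a * r w + b) = -b := by rw [smul_eq_mul]; ring
    rw [this]
    exact neg_mem hb
  · rintro ⟨y, hy⟩
    obtain ⟨a, rfl⟩ := Submodule.Quotient.mk_surjective _ y
    rw [← Submodule.Quotient.mk_smul, Submodule.Quotient.eq] at hy
    refine ⟨a, -(r w • a - p), neg_mem hy, ?_⟩
    rw [smul_eq_mul]; ring

lemma surj_insert (S : Finset σ) (w : σ) :
    Function.Surjective (Submodule.mapQ (idl r S) (idl r (insert w S)) LinearMap.id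
        (idl_mono r (Finset.subset_insert w S))) := by
  intro y
  obtain ⟨p, rfl⟩ := Submodule.Quotient.mk_surjective _ y
  exact ⟨Submodule.Quotient.mk p, rfl⟩

/-- permutable regularity -/
def PermReg : Prop :=
  ∀ (S : Finset σ) (w : σ), w ∉ S → ∀ p : R, r w * p ∈ idl r S → p ∈ idl r S

variable {r}

lemma inj_insert (h : PermReg r) (S : Finset σ) (w : σ) (hw : w ∉ S) :
    Function.Injective (LinearMap.lsmul R (R ⧸ idl r S) (r w)) := by
  rw [injective_iff_map_eq_zero]
  intro y hy
  obtain ⟨p, rfl⟩ := Submodule.Quotient.mk_surjective _ y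
  rw [LinearMap.lsmul_apply, ← Submodule.Quotient.mk_smul, Submodule.Quotient.mk_eq_zero] at hy
  rw [Submodule.Quotient.mk_eq_zero]
  exact h S w hw p hy

lemma idl_empty : idl r ∅ = ⊥ := by simp [idl]

lemma lt_quot (h : PermReg r) (S : Finset σ) :
    HasProjectiveDimensionLT (ModuleCat.of R (R ⧸ idl r S)) (S.card + 1) := by
  induction S using Finset.induction_on with
  | empty =>
    have e : (R ⧸ idl r ∅) ≃ₗ[R] R := Submodule.quotEquivOfEqBot _ idl_empty
    have : Module.Projective R (R ⧸ idl r ∅) := Module.Projective.of_equiv e.symm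
    have : Projective (ModuleCat.of R (R ⧸ idl r ∅)) :=
      ModuleCat.projective_of_categoryTheory_projective _
    simpa using (projective_iff_hasProjectiveDimensionLT_one.mp this)
  | insert w S hw ih =>
    rw [Finset.card_insert_of_notMem hw]
    exact lt_succ_of_smul (r w) _ (exact_insert r S w) (inj_insert h S w hw) (surj_insert r S w)
      _ ih

lemma ext_quot (h : PermReg r) (L : ModuleCat.{u} R) [Nontrivial L] (S : Finset σ)
    (hL : ∀ w ∈ S, ∀ l : L, r w • l = 0) :
    ∃ e : Ext (ModuleCat.of R (R ⧸ idl r S)) L S.card, e ≠ 0 := by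
  induction S using Finset.induction_on with
  | empty =>
    obtain ⟨l, hl⟩ := exists_ne (0 : L)
    have e : (R ⧸ idl r ∅) ≃ₗ[R] R := Submodule.quotEquivOfEqBot _ idl_empty
    let φ : ModuleCat.of R (R ⧸ idl r ∅) ⟶ L :=
      ModuleCat.ofHom ((LinearMap.toSpanSingleton R L l).comp e.toLinearMap)
    refine ⟨Ext.mk₀ φ, fun h0 => hl ?_⟩
    have h1 : φ = 0 := by
      apply (Ext.mk₀_bijective _ _).1
      rw [h0, Ext.mk₀_zero]
      rfl
    have h2 := congrArg (fun ψ : ModuleCat.of R (R ⧸ idl r ∅) ⟶ L => ψ.hom (e.symm 1)) h1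
    simpa [φ] using h2
  | insert w S hw ih =>
    rw [Finset.card_insert_of_notMem hw]
    exact ext_succ_of_smul (r w) _ (exact_insert r S w) (inj_insert h S w hw) (surj_insert r S w)
      _ L (hL w (Finset.mem_insert_self w S))
      (ih fun v hv => hL v (Finset.mem_insert_of_mem hv))

lemma not_lt_quot (h : PermReg r) (S : Finset σ) (hS : idl r S ≠ ⊤) :
    ¬ HasProjectiveDimensionLT (ModuleCat.of R (R ⧸ idl r S)) S.card := by
  intro hlt
  have : Nontrivial (ModuleCat.of R (R ⧸ idl r S)) := Ideal.Quotient.nontrivial_iff.mpr hS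
  obtain ⟨e, he⟩ := ext_quot h (ModuleCat.of R (R ⧸ idl r S)) S (by
    intro w hw l
    obtain ⟨p, rfl⟩ := Submodule.Quotient.mk_surjective (idl r S) l
    change r w • (Submodule.Quotient.mk p : R ⧸ idl r S) = 0
    rw [← Submodule.Quotient.mk_smul, Submodule.Quotient.mk_eq_zero]
    exact Ideal.mul_mem_right _ _ (mem_idl r hw))
  exact he (e.eq_zero_of_hasProjectiveDimensionLT S.card le_rfl)

/-- finite products -/
lemma lt_pi {ι : Type} [Fintype ι] (M : ι → Type u) [∀ i, AddCommGroup (M i)]
    [∀ i, Module R (M i)] (d : ℕ) (h : ∀ i, HasProjectiveDimensionLT (ModuleCat.of R (M i)) d) :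
    HasProjectiveDimensionLT (ModuleCat.of R (∀ i, M i)) d := by
  classical
  rw [hasProjectiveDimensionLT_iff]
  intro k hk Y e
  have h1 : 𝟙 (ModuleCat.of R (∀ i, M i)) =
      ∑ i, ModuleCat.ofHom (LinearMap.proj i) ≫ ModuleCat.ofHom (LinearMap.single R M i) := by
    ext x
    simp [Finset.univ_sum_single]
  rw [← e.mk₀_id_comp, h1, Ext.mk₀_sum, Ext.sum_comp]
  refine Finset.sum_eq_zero fun i _ => ?_
  rw [← Ext.mk₀_comp_mk₀, Ext.comp_assoc_of_second_deg_zero]
  have := h i
  rw [((Ext.mk₀ (ModuleCat.ofHom (LinearMap.single R M i))).comp e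
    (zero_add k)).eq_zero_of_hasProjectiveDimensionLT d hk, Ext.comp_zero]

lemma lt_of_retract {M N : Type u} [AddCommGroup M] [AddCommGroup N]
    [Module R M] [Module R N] (i : M →ₗ[R] N) (p : N →ₗ[R] M) (h : ∀ x, p (i x) = x) (d : ℕ)
    (hN : HasProjectiveDimensionLT (ModuleCat.of R N) d) :
    HasProjectiveDimensionLT (ModuleCat.of R M) d :=
  (Retract.mk (X := ModuleCat.of R M) (Y := ModuleCat.of R N) (ModuleCat.ofHom i)
    (ModuleCat.ofHom p) (by ext x; simpa using h x)).hasProjectiveDimensionLT d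

lemma pd_eq {M : ModuleCat.{u} R} (d : ℕ) (h1 : HasProjectiveDimensionLT M (d + 1))
    (h2 : ¬ HasProjectiveDimensionLT M d) : projectiveDimension M = d :=
  le_antisymm ((projectiveDimension_le_iff M d).mpr h1) ((projectiveDimension_ge_iff M d).mpr h2)

end abstract

section poly

open MvPolynomial

variable {K : Type u} [Field K] {σ : Type} [DecidableEq σ]

/-- the polynomial `f w` in the variable `w` -/
noncomputable def gen (f : σ → Polynomial K) (w : σ) : MvPolynomial σ K :=
  Polynomial.aeval (X w : MvPolynomial σ K) (f w)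

lemma permReg_gen (f : σ → Polynomial K) (hf : ∀ w, (f w).Monic) : PermReg (gen f) := by
  intro S w hw p hp
  let τ := {v : σ // v ≠ w}
  let e : MvPolynomial σ K ≃ₐ[K] Polynomial (MvPolynomial τ K) :=
    (renameEquiv K (Equiv.optionSubtypeNe w).symm).trans (optionEquivLeft K τ)
  have he1 : e (X w) = Polynomial.X := by
    simp [e]
  have he2 : ∀ v : τ, e (X v.1) = Polynomial.C (X v) := by
    intro v
    simp [e, Equiv.optionSubtypeNe_symm_of_ne v.2]
  let J : Ideal (MvPolynomial τ K) :=
    Ideal.span ((fun v : τ => Polynomial.aeval (X v : MvPolynomial τ K) (f v.1)) ''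
      {v : τ | v.1 ∈ S})
  have hgen : ∀ v : τ, e (gen f v.1) =
      Polynomial.C (Polynomial.aeval (X v : MvPolynomial τ K) (f v.1)) := by
    intro v
    have h1 := Polynomial.aeval_algHom_apply e (X v.1) (f v.1)
    have h2 := Polynomial.aeval_algHom_apply
      (Polynomial.CAlgHom : MvPolynomial τ K →ₐ[K] Polynomial (MvPolynomial τ K)) (X v) (f v.1)
    rw [gen, ← h1, he2]
    exact h2
  have hgenw : e (gen f w) = (f w).map (algebraMap K (MvPolynomial τ K)) := by
    have h1 := Polynomial.aeval_algHom_apply e (X w) (f w)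
    rw [gen, ← h1, he1, Polynomial.aeval_X_left_eq_map]
  have hmap : (idl (gen f) S).map e = J.map Polynomial.C := by
    simp only [idl, J, Ideal.map_span]
    congr 1
    ext q
    simp only [Set.mem_image, Finset.mem_coe, Set.mem_ofPred_eq, exists_exists_and_eq_and]
    constructor
    · rintro ⟨v, hv, rfl⟩
      have hvw : v ≠ w := fun h => hw (h ▸ hv)
      exact ⟨⟨v, hvw⟩, hv, (hgen ⟨v, hvw⟩).symm⟩
    · rintro ⟨v, hv, rfl⟩
      exact ⟨v.1, hv, hgen v⟩
  have hiff : ∀ q, q ∈ idl (gen f) S ↔ (e q).map (Ideal.Quotient.mk J) = 0 := by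
    intro q
    have h1 : q ∈ idl (gen f) S ↔ e q ∈ (idl (gen f) S).map e :=
      (Ideal.apply_mem_of_equiv_iff (f := e.toRingEquiv) (I := idl (gen f) S) (x := q)).symm
    rw [h1, hmap, Ideal.mem_map_C_iff, Polynomial.ext_iff]
    simp only [Polynomial.coeff_map, Polynomial.coeff_zero, Ideal.Quotient.eq_zero_iff_mem]
  rw [hiff] at hp ⊢
  rw [map_mul, Polynomial.map_mul, hgenw] at hp
  have hm : (((f w).map (algebraMap K (MvPolynomial τ K))).map (Ideal.Quotient.mk J)).Monic :=
    ((hf w).map _).map _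
  exact (hm.mul_right_eq_zero_iff).mp hp

end poly

end Pool.Agent.Lib.MP_a29b63_ag
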