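import Pool.Agent.Lib.MP_a29b63_ag.Defs
import Pool.Agent.Lib.MP_a29b63_ag.PD

/-! The general construction of the counterexamples. -/

set_option linter.unusedSectionVars false

namespace Pool.Agent.Lib.MP_a29b63_ag

universe u

open MvPolynomial CategoryTheory

variable {K : Type u} [Field K] {c : ℕ}

lemma IndexCat.IsHom.inj {C : IndexCat} {m n : ℕ} {e : Fin m → Fin n} (h : C.IsHom e) :
    Function.Injective e := by
  cases C
  · exact StrictMono.injective h
  · exact h

lemma IndexCat.isHom_one (C : IndexCat) {n : ℕ} (e : Fin 1 → Fin n) : C.IsHom e := by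
  cases C
  · exact Subsingleton.strictMono e
  · exact Function.injective_of_subsingleton e

lemma polyMap_X {m n : ℕ} (e : Fin m → Fin n) (w : Fin c × Fin m) :
    polyMap K c e (X w) = X (w.1, e w.2) := by
  simp [polyMap]

lemma polyMap_id (n : ℕ) (p : PolyP K c n) : polyMap K c (id : Fin n → Fin n) p = p := by
  have : (fun w : Fin c × Fin n => (w.1, id w.2)) = id := rfl
  rw [polyMap, this, rename_id]
  rfl

lemma polyMap_comp {l m n : ℕ} (e : Fin l → Fin m) (f : Fin m → Fin n) (p : PolyP K c l) :
    polyMap K c (f ∘ e) p = polyMap K c f (polyMap K c e p) := by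
  simp only [polyMap, rename_rename]
  rfl

/-- pushing a vector forward along `e` -/
noncomputable def push {m n : ℕ} (e : Fin m → Fin n) (a : Fin m → PolyP K c m) :
    Fin n → PolyP K c n :=
  fun i => ∑ j, if e j = i then polyMap K c e (a j) else 0

lemma push_apply {m n : ℕ} {e : Fin m → Fin n} (he : Function.Injective e)
    (a : Fin m → PolyP K c m) (j : Fin m) : push e a (e j) = polyMap K c e (a j) := by
  simp only [push, he.eq_iff]
  simp

lemma push_of_not {m n : ℕ} {e : Fin m → Fin n} (a : Fin m → PolyP K c m) {i : Fin n}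
    (hi : ∀ j, e j ≠ i) : push e a i = 0 := by
  simp [push, hi]

lemma sum_mul_push {m n : ℕ} (e : Fin m → Fin n) (a : Fin m → PolyP K c m)
    (t : Fin n → PolyP K c n) :
    ∑ i, t i * push e a i = ∑ j, t (e j) * polyMap K c e (a j) := by
  simp only [push, Finset.mul_sum]
  rw [Finset.sum_comm]
  refine Finset.sum_congr rfl fun j _ => ?_
  simp

lemma push_add {m n : ℕ} (e : Fin m → Fin n) (a b : Fin m → PolyP K c m) :
    push e (a + b) = push e a + push e b := by
  funext i
  simp only [push, Pi.add_apply, ← Finset.sum_add_distrib]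
  refine Finset.sum_congr rfl fun j _ => ?_
  split_ifs <;> simp

lemma push_smul {m n : ℕ} (e : Fin m → Fin n) (p : PolyP K c m) (a : Fin m → PolyP K c m) :
    push e (p • a) = polyMap K c e p • push e a := by
  funext i
  simp only [push, Pi.smul_apply, smul_eq_mul, Finset.mul_sum]
  refine Finset.sum_congr rfl fun j _ => ?_
  split_ifs <;> simp

lemma push_id {n : ℕ} (a : Fin n → PolyP K c n) : push id a = a := by
  funext i
  have := push_apply (K := K) (c := c) (e := id) Function.injective_id a i
  rw [polyMap_id] at this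
  exact this

lemma push_comp {l m n : ℕ} (e : Fin l → Fin m) (f : Fin m → Fin n)
    (a : Fin l → PolyP K c l) : push (f ∘ e) a = push f (push e a) := by
  funext i
  simp only [push, map_sum]
  have : ∀ j : Fin m, (if f j = i then ∑ k, polyMap K c f (if e k = j then polyMap K c e (a k)
      else 0) else 0) = ∑ k, if e k = j then (if f (e k) = i then polyMap K c (f ∘ e) (a k) else 0)
        else 0 := by
    intro j
    split_ifs with h
    · refine Finset.sum_congr rfl fun k _ => ?_
      split_ifs with h1 h2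
      · rw [polyMap_comp]
      · exact absurd (h1 ▸ h) h2
      · simp
    · symm
      refine Finset.sum_eq_zero fun k _ => ?_
      split_ifs with h1 h2
      · exact absurd (h1 ▸ h2) h
      · rfl
      · rfl
  simp only [this]
  rw [Finset.sum_comm]
  refine Finset.sum_congr rfl fun k _ => ?_
  simp

/-- The data of the construction. -/
structure Data (K : Type u) [Field K] (c : ℕ) (C : IndexCat) where
  o : Fin c
  f : Polynomial K
  monic : f.Monic
  s : ∀ n, Fin n → Fin n → PolyP K c n
  s_map : ∀ {m n : ℕ} (e : Fin m → Fin n), C.IsHom e → ∀ i j,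
    polyMap K c e (s m i j) = s n (e i) (e j)

namespace Data

variable {C : IndexCat} (D : Data K c C)

noncomputable def F (n : ℕ) : Fin c × Fin n → Polynomial K :=
  fun w => if w.1 = D.o then D.f else Polynomial.X

lemma F_monic (n : ℕ) (w : Fin c × Fin n) : (D.F n w).Monic := by
  unfold F
  split_ifs
  · exact D.monic
  · exact Polynomial.monic_X

noncomputable def r (n : ℕ) : Fin c × Fin n → PolyP K c n := gen (D.F n)

lemma r_reg (n : ℕ) : PermReg (D.r n) := permReg_gen _ (D.F_monic n)

lemma r_map {m n : ℕ} (e : Fin m → Fin n) (w : Fin c × Fin m) :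
    polyMap K c e (D.r m w) = D.r n (w.1, e w.2) := by
  simp only [r, gen]
  rw [← Polynomial.aeval_algHom_apply, polyMap_X]
  rfl

noncomputable def I (n : ℕ) : Ideal (PolyP K c n) := idl (D.r n) Finset.univ

noncomputable def J (n : ℕ) (i : Fin n) : Ideal (PolyP K c n) :=
  idl (D.r n) (Finset.univ.erase (D.o, i))

lemma map_idl {m n : ℕ} (e : Fin m → Fin n) (S : Finset (Fin c × Fin m))
    (T : Finset (Fin c × Fin n)) (h : ∀ w ∈ S, (w.1, e w.2) ∈ T) {p : PolyP K c m}
    (hp : p ∈ idl (D.r m) S) : polyMap K c e p ∈ idl (D.r n) T := by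
  have : idl (D.r m) S ≤ (idl (D.r n) T).comap (polyMap K c e) := by
    rw [idl, Ideal.span_le]
    rintro _ ⟨w, hw, rfl⟩
    simp only [SetLike.mem_coe, Ideal.mem_comap, r_map]
    exact mem_idl _ (h w hw)
  exact this hp

lemma I_eq (n : ℕ) (i : Fin n) : D.I n = Ideal.span {D.r n (D.o, i)} ⊔ D.J n i := by
  rw [I, J, ← idl_insert, Finset.insert_erase (Finset.mem_univ _)]

lemma J_le_I (n : ℕ) (i : Fin n) : D.J n i ≤ D.I n := idl_mono _ (Finset.subset_univ _)

lemma exists_of_mem_I {n : ℕ} (i : Fin n) {p : PolyP K c n} (hp : p ∈ D.I n) :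
    ∃ b, p + D.r n (D.o, i) * b ∈ D.J n i := by
  rw [D.I_eq n i, Ideal.mem_span_singleton_sup] at hp
  obtain ⟨a, b, hb, rfl⟩ := hp
  refine ⟨-a, ?_⟩
  have : a * D.r n (D.o, i) + b + D.r n (D.o, i) * -a = b := by ring
  rw [this]
  exact hb

/-- the free module on two generators of width one -/
abbrev Free (K : Type u) [Field K] (c n : ℕ) : Type u :=
  (Fin n → PolyP K c n) × (Fin n → PolyP K c n)

/-- the linear form `(a, b) ↦ ∑ j, s i j * a j + r i * b i` -/
noncomputable def form (n : ℕ) (i : Fin n) : Free K c n →ₗ[PolyP K c n] PolyP K c n where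
  toFun x := ∑ j, D.s n i j * x.1 j + D.r n (D.o, i) * x.2 i
  map_add' x y := by
    simp only [Prod.fst_add, Pi.add_apply, Prod.snd_add, mul_add, Finset.sum_add_distrib]
    ring
  map_smul' p x := by
    simp only [Prod.smul_fst, Pi.smul_apply, smul_eq_mul, Prod.smul_snd, RingHom.id_apply,
      mul_add, Finset.mul_sum]
    congr 1
    · exact Finset.sum_congr rfl fun j _ => by ring
    · ring

lemma form_apply (n : ℕ) (i : Fin n) (x : Free K c n) :
    D.form n i x = ∑ j, D.s n i j * x.1 j + D.r n (D.o, i) * x.2 i := rfl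

/-- the target of the embedding -/
abbrev Tgt (n : ℕ) : Type u :=
  (Fin n → PolyP K c n ⧸ D.I n) × (∀ i : Fin n, PolyP K c n ⧸ D.J n i)

noncomputable def Ψ (n : ℕ) : Free K c n →ₗ[PolyP K c n] D.Tgt n :=
  LinearMap.prod
    (LinearMap.pi fun j => (D.I n).mkQ ∘ₗ LinearMap.proj j ∘ₗ LinearMap.fst _ _ _)
    (LinearMap.pi fun i => (D.J n i).mkQ ∘ₗ D.form n i)

lemma Ψ_fst (n : ℕ) (x : Free K c n) (j : Fin n) :
    (D.Ψ n x).1 j = Submodule.Quotient.mk (x.1 j) := rfl

lemma Ψ_snd (n : ℕ) (x : Free K c n) (i : Fin n) :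
    (D.Ψ n x).2 i = Submodule.Quotient.mk (D.form n i x) := rfl

noncomputable def N (n : ℕ) : Submodule (PolyP K c n) (Free K c n) := LinearMap.ker (D.Ψ n)

lemma mem_N {n : ℕ} {x : Free K c n} :
    x ∈ D.N n ↔ (∀ j, x.1 j ∈ D.I n) ∧ ∀ i, D.form n i x ∈ D.J n i := by
  rw [N, LinearMap.mem_ker, Prod.ext_iff, funext_iff, funext_iff]
  simp only [Ψ_fst, Ψ_snd, Prod.fst_zero, Prod.snd_zero, Pi.zero_apply,
    Submodule.Quotient.mk_eq_zero]

noncomputable def pushF {m n : ℕ} (e : Fin m → Fin n) :
    Free K c m →ₛₗ[(polyMap K c e).toRingHom] Free K c n where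
  toFun x := (push e x.1, push e x.2)
  map_add' x y := by simp [push_add]
  map_smul' p x := by simp [push_smul]

lemma pushF_mem {m n : ℕ} {e : Fin m → Fin n} (he : C.IsHom e) :
    D.N m ≤ (D.N n).comap (pushF e) := by
  intro x hx
  rw [Submodule.mem_comap, mem_N]
  rw [mem_N] at hx
  obtain ⟨h1, h2⟩ := hx
  refine ⟨fun j => ?_, fun i => ?_⟩
  · change push e x.1 j ∈ _
    refine Ideal.sum_mem _ fun k _ => ?_
    split_ifs
    · exact D.map_idl e _ _ (fun w _ => Finset.mem_univ _) (h1 k)
    · exact zero_mem _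
  · rw [form_apply]
    change ∑ j, D.s n i j * push e x.1 j + D.r n (D.o, i) * push e x.2 i ∈ _
    rw [sum_mul_push]
    by_cases hi : ∃ k, e k = i
    · obtain ⟨k, rfl⟩ := hi
      have := D.map_idl e _ (Finset.univ.erase (D.o, e k)) (by
        intro w hw
        simp only [Finset.mem_erase, ne_eq, Finset.mem_univ, and_true] at hw ⊢
        intro h
        apply hw
        rw [Prod.ext_iff] at h ⊢
        exact ⟨h.1, he.inj h.2⟩) (h2 k)
      rw [form_apply, map_add, map_sum, map_mul, r_map] at this
      simp only [map_mul, D.s_map e he] at this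
      rw [push_apply he.inj]
      exact this
    · push Not at hi
      rw [push_of_not _ hi, mul_zero, add_zero]
      refine Ideal.sum_mem _ fun k _ => Ideal.mul_mem_left _ _ ?_
      refine D.map_idl e _ _ (fun w _ => ?_) (h1 k)
      simp only [Finset.mem_erase, ne_eq, Finset.mem_univ, and_true, Prod.ext_iff, not_and]
      exact fun _ => hi _

/-- the module in width `n` -/
abbrev Mod (n : ℕ) : Type u := Free K c n ⧸ D.N n

noncomputable def M : RepModule K c C where
  obj n := ModuleCat.of (PolyP K c n) (D.Mod n)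
  map e he := Submodule.mapQ _ _ (pushF e) (D.pushF_mem he)
  map_add e he x y := map_add (Submodule.mapQ _ _ (pushF e) (D.pushF_mem he)) x y
  map_id n h x := by
    obtain ⟨x, rfl⟩ := Submodule.Quotient.mk_surjective (D.N n) x
    change Submodule.Quotient.mk (push id x.1, push id x.2) = Submodule.Quotient.mk x
    rw [push_id, push_id]
  map_comp e f he hf hfe x := by
    obtain ⟨x, rfl⟩ := Submodule.Quotient.mk_surjective (D.N _) x
    change Submodule.Quotient.mk (push (f ∘ e) x.1, push (f ∘ e) x.2) =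
      Submodule.Quotient.mk (push f (push e x.1), push f (push e x.2))
    rw [push_comp, push_comp]
  map_smul e he p x := (Submodule.mapQ _ _ (pushF e) (D.pushF_mem he)).map_smulₛₗ p x

lemma M_map {m n : ℕ} (e : Fin m → Fin n) (he : C.IsHom e) (x : Free K c m) :
    D.M.map e he (Submodule.Quotient.mk x : D.Mod m) =
      (Submodule.Quotient.mk (push e x.1, push e x.2) : D.Mod n) := rfl

lemma push_one {n : ℕ} (j : Fin n) :
    push (K := K) (c := c) (fun _ : Fin 1 => j) (fun _ => 1) = Pi.single j 1 := by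
  funext i
  simp only [push, Finset.univ_unique, Finset.sum_singleton, map_one, Pi.single_apply, eq_comm]

lemma push_zero {m n : ℕ} (e : Fin m → Fin n) :
    push (K := K) (c := c) e 0 = 0 := by
  funext i
  simp [push]

lemma M_FG : D.M.FG := by
  let g1 : D.Mod 1 := Submodule.Quotient.mk (fun _ => 1, 0)
  let g2 : D.Mod 1 := Submodule.Quotient.mk (0, fun _ => 1)
  refine ⟨{⟨1, g1⟩, ⟨1, g2⟩}, Set.toFinite _, fun N hN hG n => ?_⟩
  have h1 : ∀ j : Fin n, (Submodule.Quotient.mk (Pi.single j 1, 0) : D.Mod n) ∈ N n := by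
    intro j
    have := hN 1 n (fun _ => j) (C.isHom_one _) g1 (hG ⟨1, g1⟩ (by simp))
    rw [M_map, push_one, push_zero] at this
    exact this
  have h2 : ∀ j : Fin n, (Submodule.Quotient.mk (0, Pi.single j 1) : D.Mod n) ∈ N n := by
    intro j
    have := hN 1 n (fun _ => j) (C.isHom_one _) g2 (hG ⟨1, g2⟩ (by simp))
    rw [M_map, push_one, push_zero] at this
    exact this
  rw [eq_top_iff]
  intro x _
  obtain ⟨x, rfl⟩ := Submodule.Quotient.mk_surjective (D.N n) x
  have hx : x = ∑ j, x.1 j • ((Pi.single j 1, 0) : Free K c n) +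
      ∑ j, x.2 j • ((0, Pi.single j 1) : Free K c n) := by
    ext i
    · simp [Prod.fst_sum, Finset.sum_apply, Pi.single_apply]
    · simp [Prod.snd_sum, Finset.sum_apply, Pi.single_apply]
  have hx' : (Submodule.Quotient.mk x : D.Mod n) =
      ∑ j, x.1 j • (Submodule.Quotient.mk (Pi.single j 1, 0) : D.Mod n) +
      ∑ j, x.2 j • (Submodule.Quotient.mk (0, Pi.single j 1) : D.Mod n) := by
    have := congrArg (D.N n).mkQ hx
    rw [map_add, map_sum, map_sum] at this
    simpa only [map_smul, Submodule.mkQ_apply] using this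
  change (Submodule.Quotient.mk x : D.Mod n) ∈ N n
  rw [hx']
  exact add_mem (Submodule.sum_mem _ fun j _ => Submodule.smul_mem _ _ (h1 j))
    (Submodule.sum_mem _ fun j _ => Submodule.smul_mem _ _ (h2 j))

end Data

end Pool.Agent.Lib.MP_a29b63_ag
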