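import Mathlib

/-! OI- and FI-modules over the polynomial OI- (FI-) algebra with `c` colours. -/

namespace Pool.Agent.Lib.MP_a29b63_ag

universe u

/-- The two indexing categories. -/
inductive IndexCat
  | OI
  | FI

/-- Morphisms `[m] → [n]`: strictly increasing maps in OI, injective maps in FI. -/
def IndexCat.IsHom : IndexCat → ∀ {m n : ℕ}, (Fin m → Fin n) → Prop
  | IndexCat.OI, _, _, e => StrictMono e
  | IndexCat.FI, _, _, e => Function.Injective e

/-- `P_n = K[x_{i,j} : i < c, j < n]`. -/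
abbrev PolyP (K : Type u) [Field K] (c n : ℕ) : Type u := MvPolynomial (Fin c × Fin n) K

/-- The algebra map `x_{i,j} ↦ x_{i,e j}`. -/
noncomputable def polyMap (K : Type u) [Field K] (c : ℕ) {m n : ℕ} (e : Fin m → Fin n) :
    PolyP K c m →ₐ[K] PolyP K c n :=
  MvPolynomial.rename (fun w => (w.1, e w.2))

/-- An OI-module (FI-module) over `P`. -/
structure RepModule (K : Type u) [Field K] (c : ℕ) (C : IndexCat) where
  obj : (n : ℕ) → ModuleCat.{u} (PolyP K c n)
  map : ∀ {m n : ℕ} (e : Fin m → Fin n), C.IsHom e → obj m → obj n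
  map_add : ∀ {m n : ℕ} (e : Fin m → Fin n) (he : C.IsHom e) (x y : obj m),
    map e he (x + y) = map e he x + map e he y
  map_id : ∀ (n : ℕ) (h : C.IsHom (id : Fin n → Fin n)) (x : obj n), map id h x = x
  map_comp : ∀ {l m n : ℕ} (e : Fin l → Fin m) (f : Fin m → Fin n) (he : C.IsHom e)
    (hf : C.IsHom f) (hfe : C.IsHom (f ∘ e)) (x : obj l),
    map (f ∘ e) hfe x = map f hf (map e he x)
  map_smul : ∀ {m n : ℕ} (e : Fin m → Fin n) (he : C.IsHom e) (p : PolyP K c m) (x : obj m),
    map e he (p • x) = polyMap K c e p • map e he x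

/-- Finite generation: some finite subset of the disjoint union of the `M_n` lies in no proper
submodule. -/
def RepModule.FG {K : Type u} [Field K] {c : ℕ} {C : IndexCat} (M : RepModule K c C) : Prop :=
  ∃ G : Set (Σ n : ℕ, M.obj n), G.Finite ∧
    ∀ N : (n : ℕ) → Submodule (PolyP K c n) (M.obj n),
      (∀ (m n : ℕ) (e : Fin m → Fin n) (he : C.IsHom e) (x : M.obj m),
        x ∈ N m → M.map e he x ∈ N n) →
      (∀ g ∈ G, g.2 ∈ N g.1) → ∀ n, N n = ⊤

/-- A grading compatible with the standard grading of `P` (all variables in degree one) and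
preserved by the transition maps. -/
def RepModule.IsGraded {K : Type u} [Field K] {c : ℕ} {C : IndexCat} (M : RepModule K c C) :
    Prop :=
  ∃ A : (n : ℕ) → ℤ → AddSubgroup (M.obj n),
    (∀ n, DirectSum.IsInternal (A n)) ∧
    (∀ (n : ℕ) (d : ℤ) (k : ℕ) (p : PolyP K c n) (x : M.obj n),
      p.IsHomogeneous k → x ∈ A n d → p • x ∈ A n (d + k)) ∧
    (∀ (m n : ℕ) (e : Fin m → Fin n) (he : C.IsHom e) (d : ℤ) (x : M.obj m),
      x ∈ A m d → M.map e he x ∈ A n d)

end Pool.Agent.Lib.MP_a29b63_ag
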