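import Pool.Agent.Lib.MP_a29b63_ag.Construction

/-! Projective dimensions of the modules of the construction. -/

set_option linter.unusedSectionVars false

namespace Pool.Agent.Lib.MP_a29b63_ag

universe u

open MvPolynomial CategoryTheory

variable {K : Type u} [Field K] {c : ℕ}

lemma lt_prod {R : Type u} [CommRing R] {M N : Type u} [AddCommGroup M] [AddCommGroup N]
    [Module R M] [Module R N] (d : ℕ) (hM : HasProjectiveDimensionLT (ModuleCat.of R M) d)
    (hN : HasProjectiveDimensionLT (ModuleCat.of R N) d) :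
    HasProjectiveDimensionLT (ModuleCat.of R (M × N)) d :=
  (shortExact_of (LinearMap.inl R M N) (LinearMap.snd R M N) Function.Exact.inl_snd
    LinearMap.inl_injective LinearMap.snd_surjective).hasProjectiveDimensionLT_X₂ d hM hN

section point

variable {σ : Type} [DecidableEq σ] [Fintype σ]

/-- the maximal ideal of a rational point -/
noncomputable def ptIdeal (α : σ → K) : Ideal (MvPolynomial σ K) :=
  idl (gen fun w => Polynomial.X - Polynomial.C (α w)) Finset.univ

lemma gen_pt (α : σ → K) (w : σ) :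
    gen (fun w => Polynomial.X - Polynomial.C (α w)) w = (X w - C (α w) : MvPolynomial σ K) := by
  simp [gen]

lemma sub_mem_ptIdeal (α : σ → K) (p : MvPolynomial σ K) : p - C (eval α p) ∈ ptIdeal α := by
  induction p using MvPolynomial.induction_on with
  | C a => simp
  | add p q hp hq =>
    have : p + q - C (eval α (p + q)) = (p - C (eval α p)) + (q - C (eval α q)) := by
      simp only [map_add]; ring
    rw [this]
    exact add_mem hp hq
  | mul_X p w hp =>
    have : p * X w - C (eval α (p * X w)) =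
        (p - C (eval α p)) * X w + C (eval α p) * (X w - C (α w)) := by
      simp only [map_mul, eval_X]; ring
    rw [this]
    refine add_mem (Ideal.mul_mem_right _ _ hp) (Ideal.mul_mem_left _ _ ?_)
    rw [← gen_pt]
    exact mem_idl _ (Finset.mem_univ w)

lemma mem_ptIdeal (α : σ → K) {p : MvPolynomial σ K} (h : eval α p = 0) : p ∈ ptIdeal α := by
  simpa [h] using sub_mem_ptIdeal α p

lemma idl_ne_top (r : σ → MvPolynomial σ K) (S : Finset σ) (α : σ → K)
    (h : ∀ w ∈ S, eval α (r w) = 0) : idl r S ≠ ⊤ := by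
  have : idl r S ≤ RingHom.ker (eval α) := by
    rw [idl, Ideal.span_le]
    rintro _ ⟨w, hw, rfl⟩
    exact h w hw
  intro htop
  rw [htop, top_le_iff] at this
  exact RingHom.ker_ne_top _ this

lemma not_lt_pt (α : σ → K) :
    ¬ HasProjectiveDimensionLT (ModuleCat.of (MvPolynomial σ K) (MvPolynomial σ K ⧸ ptIdeal α))
      (Fintype.card σ) :=
  not_lt_quot (permReg_gen _ fun w => Polynomial.monic_X_sub_C (α w)) Finset.univ
    (idl_ne_top _ _ α fun w _ => by simp [gen_pt])

end point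

namespace Data

variable {C : IndexCat} (D : Data K c C)

lemma card_eq (n : ℕ) : (Finset.univ : Finset (Fin c × Fin n)).card = c * n := by simp

lemma card_erase (n : ℕ) (i : Fin n) :
    ((Finset.univ : Finset (Fin c × Fin n)).erase (D.o, i)).card = c * n - 1 := by
  rw [Finset.card_erase_of_mem (Finset.mem_univ _), card_eq]

include D in
lemma pos (n : ℕ) (i : Fin n) : 1 ≤ c * n := Nat.mul_pos D.o.pos i.pos

lemma lt_I (n : ℕ) :
    HasProjectiveDimensionLT (ModuleCat.of (PolyP K c n) (PolyP K c n ⧸ D.I n)) (c * n + 1) := by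
  have := lt_quot (D.r_reg n) Finset.univ
  rwa [card_eq] at this

lemma lt_J (n : ℕ) (i : Fin n) :
    HasProjectiveDimensionLT (ModuleCat.of (PolyP K c n) (PolyP K c n ⧸ D.J n i)) (c * n) := by
  have := lt_quot (D.r_reg n) (Finset.univ.erase (D.o, i))
  rwa [card_erase, Nat.sub_add_cancel (D.pos n i)] at this

noncomputable def Ψbar (n : ℕ) : D.Mod n →ₗ[PolyP K c n] D.Tgt n :=
  (D.N n).liftQ (D.Ψ n) le_rfl

lemma Ψbar_mk (n : ℕ) (x : Free K c n) : D.Ψbar n (Submodule.Quotient.mk x) = D.Ψ n x := rfl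

lemma Ψbar_inj (n : ℕ) : Function.Injective (D.Ψbar n) := by
  rw [← LinearMap.ker_eq_bot]
  exact Submodule.ker_liftQ_eq_bot _ _ _ le_rfl

noncomputable def fac (n : ℕ) (i : Fin n) :
    (PolyP K c n ⧸ D.J n i) →ₗ[PolyP K c n] (PolyP K c n ⧸ D.I n) :=
  Submodule.mapQ _ _ LinearMap.id (D.J_le_I n i)

noncomputable def Θ (n : ℕ) : D.Tgt n →ₗ[PolyP K c n] (Fin n → PolyP K c n ⧸ D.I n) :=
  LinearMap.pi fun i => D.fac n i ∘ₗ LinearMap.proj i ∘ₗ LinearMap.snd _ _ _ -
    ∑ j, D.s n i j • (LinearMap.proj j ∘ₗ LinearMap.fst _ _ _)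

lemma Θ_apply (n : ℕ) (y : D.Tgt n) (i : Fin n) :
    D.Θ n y i = D.fac n i (y.2 i) - ∑ j, D.s n i j • y.1 j := by
  simp [Θ, LinearMap.sum_apply]

lemma Θ_mk (n : ℕ) (a q : Fin n → PolyP K c n) (i : Fin n) :
    D.Θ n (fun j => Submodule.Quotient.mk (a j), fun i => Submodule.Quotient.mk (q i)) i =
      Submodule.Quotient.mk (q i - ∑ j, D.s n i j * a j) := by
  rw [Θ_apply]
  have := map_sum (D.I n).mkQ (fun j => D.s n i j * a j) Finset.univ
  simp only [Submodule.mkQ_apply] at this
  rw [Submodule.Quotient.mk_sub, this]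
  rfl

lemma Θ_surj (n : ℕ) : Function.Surjective (D.Θ n) := by
  intro y
  choose q hq using fun i => Submodule.Quotient.mk_surjective (D.I n) (y i)
  refine ⟨(fun j => Submodule.Quotient.mk ((0 : Fin n → PolyP K c n) j),
    fun i => Submodule.Quotient.mk (q i)), ?_⟩
  funext i
  rw [Θ_mk, ← hq i]
  simp

lemma range_iff (n : ℕ) (a q : Fin n → PolyP K c n) (h : ∀ i, q i - ∑ j, D.s n i j * a j ∈ D.I n) :
    ∃ b, D.Ψ n (a, b) =
      (fun j => Submodule.Quotient.mk (a j), fun i => Submodule.Quotient.mk (q i)) := by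
  choose b hb using fun i => D.exists_of_mem_I i (neg_mem (h i))
  refine ⟨b, Prod.ext rfl ?_⟩
  funext i
  rw [Ψ_snd, Submodule.Quotient.eq, form_apply]
  have : ∑ j, D.s n i j * (a, b).1 j + D.r n (D.o, i) * (a, b).2 i - q i =
    -(q i - ∑ j, D.s n i j * a j) + D.r n (D.o, i) * b i := by ring
  rw [this]
  exact hb i

lemma exact_ΨΘ (n : ℕ) : Function.Exact (D.Ψbar n) (D.Θ n) := by
  rintro ⟨v, y⟩
  choose a ha using fun i => Submodule.Quotient.mk_surjective (D.I n) (v i)
  choose q hq using fun i => Submodule.Quotient.mk_surjective (D.J n i) (y i)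
  obtain rfl : v = fun j => Submodule.Quotient.mk (a j) := funext fun j => (ha j).symm
  obtain rfl : y = fun j => Submodule.Quotient.mk (q j) := funext fun j => (hq j).symm
  constructor
  · intro h
    obtain ⟨b, hb⟩ := D.range_iff n a q fun i => by
      have := congrFun h i
      rwa [Θ_mk, Pi.zero_apply, Submodule.Quotient.mk_eq_zero] at this
    exact ⟨Submodule.Quotient.mk (a, b), hb⟩
  · rintro ⟨x, hx⟩
    obtain ⟨x, rfl⟩ := Submodule.Quotient.mk_surjective (D.N n) x
    rw [← hx, Ψbar_mk]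
    funext i
    have : D.Ψ n x = (fun j => Submodule.Quotient.mk (x.1 j),
      fun i => Submodule.Quotient.mk (D.form n i x)) := rfl
    rw [this, Θ_mk, Pi.zero_apply, Submodule.Quotient.mk_eq_zero, form_apply, add_sub_cancel_left]
    exact Ideal.mul_mem_right _ _ (mem_idl _ (Finset.mem_univ _))

lemma lt_piJ (n : ℕ) : HasProjectiveDimensionLT
    (ModuleCat.of (PolyP K c n) (∀ i : Fin n, PolyP K c n ⧸ D.J n i)) (c * n) :=
  lt_pi _ _ (D.lt_J n)

lemma lt_piI (n : ℕ) : HasProjectiveDimensionLT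
    (ModuleCat.of (PolyP K c n) (Fin n → PolyP K c n ⧸ D.I n)) (c * n + 1) :=
  lt_pi _ _ fun _ => D.lt_I n

lemma lt_M (n : ℕ) : HasProjectiveDimensionLT (D.M.obj n) (c * n + 1) := by
  have h1 := D.lt_piI n
  have h2 := D.lt_piJ n
  exact (shortExact_of (D.Ψbar n) (D.Θ n) (D.exact_ΨΘ n) (D.Ψbar_inj n)
    (D.Θ_surj n)).hasProjectiveDimensionLT_X₁ (c * n + 1)
    (lt_prod _ h1 (hasProjectiveDimensionLT_of_ge _ (c * n) _ (Nat.le_succ _)))
    (hasProjectiveDimensionLT_of_ge (ModuleCat.of (PolyP K c n) (Fin n → PolyP K c n ⧸ D.I n))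
      (c * n + 1) _ (Nat.le_succ _))

/-- the point with coordinates `a j` in colour `o` and zero in the other colours -/
def pt {n : ℕ} (a : Fin n → K) : Fin c × Fin n → K := fun w => if w.1 = D.o then a w.2 else 0

lemma eval_r {n : ℕ} (a : Fin n → K) (ha : ∀ j, D.f.eval (a j) = 0) (w : Fin c × Fin n) :
    eval (D.pt a) (D.r n w) = 0 := by
  have h1 := Polynomial.aeval_algHom_apply (MvPolynomial.aeval (R := K) (D.pt a)) (X w) (D.F n w)
  have h2 : eval (D.pt a) (D.r n w) = MvPolynomial.aeval (R := K) (D.pt a) (D.r n w) := rfl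
  rw [h2, r, gen, ← h1, aeval_X]
  unfold F pt
  split_ifs
  · simpa using ha _
  · simp

/-- the invertible case -/
lemma pd_of_isUnit {n : ℕ} (hn : 1 ≤ n) (a₀ : K) (ha₀ : D.f.eval a₀ = 0)
    (hS : IsUnit ((Matrix.of (D.s n)).map (Ideal.Quotient.mk (D.I n)))) :
    projectiveDimension (D.M.obj n) = (c * n - 1 : ℕ) := by
  set S := (Matrix.of (D.s n)).map (Ideal.Quotient.mk (D.I n)) with hSdef
  have hmul : ∀ (a : Fin n → PolyP K c n) (i : Fin n),
      S.mulVec (fun j => Ideal.Quotient.mk (D.I n) (a j)) i =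
        Ideal.Quotient.mk (D.I n) (∑ j, D.s n i j * a j) := by
    intro a i
    simp [hSdef, Matrix.mulVec, dotProduct]
  let φ : D.Mod n →ₗ[PolyP K c n] (∀ i : Fin n, PolyP K c n ⧸ D.J n i) :=
    LinearMap.snd _ _ _ ∘ₗ D.Ψbar n
  have hinj : Function.Injective φ := by
    rw [injective_iff_map_eq_zero]
    intro x hx
    obtain ⟨x, rfl⟩ := Submodule.Quotient.mk_surjective (D.N n) x
    have h2 : ∀ i, D.form n i x ∈ D.J n i := fun i => by
      have : (D.Ψ n x).2 i = 0 := congrFun hx i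
      rwa [Ψ_snd, Submodule.Quotient.mk_eq_zero] at this
    rw [Submodule.Quotient.mk_eq_zero, mem_N]
    refine ⟨fun j => ?_, h2⟩
    have h3 : S.mulVec (fun j => Ideal.Quotient.mk (D.I n) (x.1 j)) = S.mulVec 0 := by
      funext i
      rw [hmul, Matrix.mulVec_zero, Pi.zero_apply, Ideal.Quotient.eq_zero_iff_mem]
      have h4 := D.J_le_I n i (h2 i)
      rw [form_apply] at h4
      have h5 : D.r n (D.o, i) * x.2 i ∈ D.I n :=
        Ideal.mul_mem_right _ _ (mem_idl _ (Finset.mem_univ _))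
      simpa using sub_mem h4 h5
    have h4 := congrFun (Matrix.mulVec_injective_of_isUnit hS h3) j
    exact Ideal.Quotient.eq_zero_iff_mem.mp h4
  have hsurj : Function.Surjective φ := by
    intro y
    choose q hq using fun i => Submodule.Quotient.mk_surjective (D.J n i) (y i)
    obtain ⟨v, hv⟩ := (Matrix.mulVec_surjective_iff_isUnit.mpr hS)
      (fun i => Ideal.Quotient.mk (D.I n) (q i))
    choose a ha using fun i => Ideal.Quotient.mk_surjective (I := D.I n) (v i)
    obtain rfl : v = fun j => Ideal.Quotient.mk (D.I n) (a j) := funext fun j => (ha j).symm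
    obtain ⟨b, hb⟩ := D.range_iff n a q fun i => by
      rw [← Ideal.Quotient.eq, ← hmul, hv]
    refine ⟨Submodule.Quotient.mk (a, b), ?_⟩
    change (D.Ψ n (a, b)).2 = y
    rw [hb]
    exact funext hq
  have e := LinearEquiv.ofBijective φ ⟨hinj, hsurj⟩
  let i₀ : Fin n := ⟨0, hn⟩
  have h1 : projectiveDimension (D.M.obj n) = projectiveDimension
      (ModuleCat.of (PolyP K c n) (∀ i : Fin n, PolyP K c n ⧸ D.J n i)) :=
    projectiveDimension_eq_of_iso e.toModuleIso
  rw [h1]
  refine pd_eq _ ?_ fun h => ?_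
  · rw [Nat.sub_add_cancel (D.pos n i₀)]
    exact D.lt_piJ n
  · have h2 := lt_of_retract (R := PolyP K c n)
      (LinearMap.single (PolyP K c n) (fun i : Fin n => PolyP K c n ⧸ D.J n i) i₀)
      (LinearMap.proj i₀) (fun x => by simp) _ h
    refine not_lt_quot (D.r_reg n) (Finset.univ.erase (D.o, i₀))
      (idl_ne_top _ _ (D.pt fun _ => a₀) fun w _ => D.eval_r _ (fun _ => ha₀) w) ?_
    rw [card_erase]
    exact h2

/-- the singular case -/
lemma pd_of_singular {n : ℕ} (a : Fin n → K) (ha : ∀ j, D.f.eval (a j) = 0)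
    (v : Fin n → K) (j₀ : Fin n) (hv : v j₀ = 1)
    (hker : ∀ i, ∑ j, eval (D.pt a) (D.s n i j) * v j = 0)
    (ε : PolyP K c n) (hε : eval (D.pt a) ε = 1)
    (hε' : ∀ j, (X (D.o, j) - MvPolynomial.C (a j)) * ε ∈ D.I n) :
    projectiveDimension (D.M.obj n) = (c * n : ℕ) := by
  refine pd_eq _ (D.lt_M n) fun h => ?_
  have hI : D.I n ≤ ptIdeal (D.pt a) := by
    rw [I, idl, Ideal.span_le]
    rintro _ ⟨w, -, rfl⟩
    exact mem_ptIdeal _ (D.eval_r a ha w)
  have hkill : ∀ p ∈ ptIdeal (D.pt a), p * ε ∈ D.I n := by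
    have : ptIdeal (D.pt a) ≤ Submodule.comap (LinearMap.mulRight (PolyP K c n) ε) (D.I n) := by
      rw [ptIdeal, idl, Ideal.span_le]
      rintro _ ⟨w, -, rfl⟩
      rw [gen_pt]
      change (X w - MvPolynomial.C (D.pt a w)) * ε ∈ D.I n
      by_cases hw : w.1 = D.o
      · have : w = (D.o, w.2) := Prod.ext hw rfl
        rw [this]
        simpa [pt] using hε' w.2
      · have h1 : D.r n w = X w := by simp [r, gen, F, hw]
        have h2 : D.pt a w = 0 := by simp [pt, hw]
        rw [h2, map_zero, sub_zero, ← h1]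
        exact Ideal.mul_mem_right _ _ (mem_idl _ (Finset.mem_univ _))
    exact fun p hp => this hp
  let a' : Fin n → PolyP K c n := fun j => MvPolynomial.C (v j) * ε
  have h1 : ∀ i, ∑ j, D.s n i j * a' j ∈ D.I n := by
    intro i
    have : ∑ j, D.s n i j * a' j = (∑ j, D.s n i j * MvPolynomial.C (v j)) * ε := by
      rw [Finset.sum_mul]
      exact Finset.sum_congr rfl fun j _ => by simp only [a']; ring
    rw [this]
    refine hkill _ (mem_ptIdeal _ ?_)
    simpa using hker i
  choose b hb using fun i => D.exists_of_mem_I i (h1 i)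
  let m₀ : D.Mod n := Submodule.Quotient.mk (a', b)
  have hm₀ : ptIdeal (D.pt a) ≤
      LinearMap.ker (LinearMap.toSpanSingleton (PolyP K c n) (D.Mod n) m₀) := by
    intro p hp
    rw [LinearMap.mem_ker, LinearMap.toSpanSingleton_apply, ← Submodule.Quotient.mk_smul,
      Submodule.Quotient.mk_eq_zero, mem_N]
    refine ⟨fun j => ?_, fun i => ?_⟩
    · have : (p • (a', b)).1 j = MvPolynomial.C (v j) * (p * ε) := by
        simp only [Prod.smul_fst, Pi.smul_apply, smul_eq_mul, a']; ring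
      rw [this]
      exact Ideal.mul_mem_left _ _ (hkill p hp)
    · rw [map_smul, smul_eq_mul]
      exact Ideal.mul_mem_left _ _ (hb i)
  let ι : (PolyP K c n ⧸ ptIdeal (D.pt a)) →ₗ[PolyP K c n] D.Mod n :=
    Submodule.liftQ _ _ hm₀
  have hρ : D.N n ≤ LinearMap.ker ((ptIdeal (D.pt a)).mkQ ∘ₗ LinearMap.proj j₀ ∘ₗ
      LinearMap.fst (PolyP K c n) (Fin n → PolyP K c n) (Fin n → PolyP K c n)) := by
    intro x hx
    rw [mem_N] at hx
    rw [LinearMap.mem_ker]
    exact (Submodule.Quotient.mk_eq_zero _).mpr (hI (hx.1 j₀))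
  let ρ : D.Mod n →ₗ[PolyP K c n] (PolyP K c n ⧸ ptIdeal (D.pt a)) :=
    Submodule.liftQ _ _ hρ
  have hret : ∀ x, ρ (ι x) = x := by
    intro x
    obtain ⟨p, rfl⟩ := Submodule.Quotient.mk_surjective (ptIdeal (D.pt a)) x
    change Submodule.Quotient.mk (p * a' j₀) = Submodule.Quotient.mk p
    rw [Submodule.Quotient.eq]
    apply mem_ptIdeal
    simp [a', hv, hε]
  have h2 := lt_of_retract ι ρ hret _ h
  apply not_lt_pt (D.pt a)
  simpa using h2

end Data

end Pool.Agent.Lib.MP_a29b63_ag
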