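import Pool.Agent.Lib.MP_a29b63_ag.Construction

/-! The construction is graded when `f = X` and the matrix has constant entries. -/

set_option linter.unusedSectionVars false

namespace Pool.Agent.Lib.MP_a29b63_ag

universe u

open MvPolynomial CategoryTheory

lemma isInternal_of_proj {M : Type u} [AddCommGroup M] (A : ℤ → AddSubgroup M) (π : ℤ → M →+ M)
    (h1 : ∀ d x, x ∈ A d → π d x = x) (h2 : ∀ d e x, d ≠ e → x ∈ A e → π d x = 0)
    (h3 : ∀ x, x ∈ ⨆ d, A d) : DirectSum.IsInternal A := by
  have key : ∀ (z : DirectSum ℤ fun d => A d) (d : ℤ),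
      π d (DirectSum.coeAddMonoidHom A z) = z d := by
    intro z d
    induction z using DirectSum.induction_on with
    | zero => simp
    | of e x =>
      rw [DirectSum.coeAddMonoidHom_of]
      by_cases h : d = e
      · subst h
        rw [DirectSum.of_eq_same, h1 d x x.2]
      · rw [DirectSum.of_eq_of_ne _ _ _ h, h2 d e x h x.2]
        rfl
    | add x y hx hy => simp [hx, hy]
  constructor
  · rw [injective_iff_map_eq_zero]
    intro z hz
    ext d
    rw [← key, hz]
    simp
  · intro x
    have : (⨆ d, A d) ≤ (DirectSum.coeAddMonoidHom A).range := by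
      refine iSup_le fun d y hy => ⟨DirectSum.of (fun d => A d) d ⟨y, hy⟩, ?_⟩
      rw [DirectSum.coeAddMonoidHom_of]
    exact this (h3 x)

variable {K : Type u} [Field K] {c : ℕ}

section hom

variable {σ τ : Type}

/-- homogeneous of integer degree `d` -/
abbrev Hmg (d : ℤ) (p : MvPolynomial σ K) : Prop := IsWeightedHomogeneous (fun _ => (1 : ℤ)) p d

/-- homogeneous component of integer degree `d` -/
noncomputable abbrev cmp (d : ℤ) : MvPolynomial σ K →ₗ[K] MvPolynomial σ K :=
  weightedHomogeneousComponent (fun _ => (1 : ℤ)) d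

lemma weight_int (m : σ →₀ ℕ) :
    Finsupp.weight (fun _ => (1 : ℤ)) m = ((Finsupp.weight (1 : σ → ℕ) m : ℕ) : ℤ) := by
  simp [Finsupp.weight_apply, Finsupp.sum]

lemma hmg_of_isHomogeneous {p : MvPolynomial σ K} {k : ℕ} (h : p.IsHomogeneous k) :
    Hmg (k : ℤ) p := by
  intro m hm
  rw [weight_int, h hm]

lemma Hmg.rename' {p : MvPolynomial σ K} {d : ℤ} (h : Hmg d p) (e : σ → τ) :
    Hmg d (rename e p) := by
  intro m hm
  obtain ⟨m', rfl, hm'⟩ := coeff_rename_ne_zero e p m hm
  rw [← h hm', Finsupp.weight_apply, Finsupp.weight_apply, Finsupp.sum_mapDomain_index]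
  · simp
  · intro _ a b
    simp

lemma cmp_mul {q : MvPolynomial σ K} {k : ℤ} (hq : Hmg k q) (d : ℤ) (p : MvPolynomial σ K) :
    cmp d (q * p) = q * cmp (d - k) p := by
  induction p using MvPolynomial.induction_on' with
  | monomial m a =>
    have hm : Hmg (Finsupp.weight (fun _ => (1 : ℤ)) m) (monomial m a) :=
      isWeightedHomogeneous_monomial _ _ _ rfl
    by_cases h : d - k = Finsupp.weight (fun _ => (1 : ℤ)) m
    · have h' : d = k + Finsupp.weight (fun _ => (1 : ℤ)) m := by omega
      rw [h, hm.weightedHomogeneousComponent_same, h',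
        (hq.mul hm).weightedHomogeneousComponent_same]
    · have h' : d ≠ k + Finsupp.weight (fun _ => (1 : ℤ)) m := by omega
      rw [hm.weightedHomogeneousComponent_ne _ h,
        (hq.mul hm).weightedHomogeneousComponent_ne _ h', mul_zero]
  | add p₁ p₂ h₁ h₂ => rw [mul_add, map_add, map_add, h₁, h₂, mul_add]

lemma cmp_mem_span (S : Set σ) (d : ℤ) {p : MvPolynomial σ K}
    (hp : p ∈ Ideal.span (X '' S : Set (MvPolynomial σ K))) :
    cmp d p ∈ Ideal.span (X '' S : Set (MvPolynomial σ K)) := by
  classical
  rw [mem_ideal_span_X_image] at hp ⊢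
  intro m hm
  rw [support_weightedHomogeneousComponent] at hm
  exact hp m (Finset.mem_filter.mp hm).1

end hom

namespace Data

variable {C : IndexCat} (D : Data K c C)

lemma r_eq (hf : D.f = Polynomial.X) (n : ℕ) : D.r n = X := by
  funext w
  simp [r, gen, F, hf]

lemma M_isGraded (hf : D.f = Polynomial.X) (hs : ∀ n i j, Hmg 0 (D.s n i j)) :
    D.M.IsGraded := by
  let B : (n : ℕ) → ℤ → AddSubgroup (Free K c n) := fun n d =>
    { carrier := {x | (∀ j, Hmg d (x.1 j)) ∧ ∀ i, Hmg (d - 1) (x.2 i)}
      add_mem' := fun hx hy => ⟨fun j => (hx.1 j).add (hy.1 j), fun j => (hx.2 j).add (hy.2 j)⟩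
      zero_mem' := ⟨fun _ => isWeightedHomogeneous_zero _ _ _,
        fun _ => isWeightedHomogeneous_zero _ _ _⟩
      neg_mem' := fun hx => ⟨fun j => (hx.1 j).neg, fun j => (hx.2 j).neg⟩ }
  let A : (n : ℕ) → ℤ → AddSubgroup (D.Mod n) := fun n d =>
    (B n d).map (D.N n).mkQ.toAddMonoidHom
  refine ⟨A, fun n => ?_, ?_, ?_⟩
  · let π₀ : ℤ → Free K c n →+ Free K c n := fun d =>
      { toFun := fun x => (fun j => cmp d (x.1 j), fun i => cmp (d - 1) (x.2 i))
        map_zero' := by ext <;> simp
        map_add' := fun x y => by ext <;> simp }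
    have hN : ∀ d, (D.N n).toAddSubgroup ≤ (D.N n).toAddSubgroup.comap (π₀ d) := by
      intro d x hx
      change π₀ d x ∈ D.N n
      change x ∈ D.N n at hx
      rw [mem_N] at hx ⊢
      refine ⟨fun j => ?_, fun i => ?_⟩
      · have := hx.1 j
        rw [I, idl, D.r_eq hf] at this ⊢
        exact cmp_mem_span _ d this
      · have h1 := hx.2 i
        have h2 : D.form n i (π₀ d x) = cmp d (D.form n i x) := by
          rw [form_apply, form_apply, map_add, map_sum, D.r_eq hf,
            cmp_mul (isWeightedHomogeneous_X K (fun _ => (1 : ℤ)) (D.o, i))]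
          congr 1
          refine Finset.sum_congr rfl fun j _ => ?_
          rw [cmp_mul (hs n i j), sub_zero]
          rfl
        rw [h2]
        rw [J, idl, D.r_eq hf] at h1 ⊢
        exact cmp_mem_span _ d h1
    let π : ℤ → D.Mod n →+ D.Mod n := fun d => QuotientAddGroup.map _ _ (π₀ d) (hN d)
    have hπ : ∀ d (x : Free K c n), π d (Submodule.Quotient.mk x) =
        Submodule.Quotient.mk (π₀ d x) := fun d x => rfl
    refine isInternal_of_proj (A n) π ?_ ?_ ?_
    · rintro d _ ⟨x, hx, rfl⟩
      change π d (Submodule.Quotient.mk x) = Submodule.Quotient.mk x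
      rw [hπ]
      congr 1
      exact Prod.ext (funext fun j => (hx.1 j).weightedHomogeneousComponent_same)
        (funext fun j => (hx.2 j).weightedHomogeneousComponent_same)
    · rintro d e _ hde ⟨x, hx, rfl⟩
      change π d (Submodule.Quotient.mk x) = 0
      rw [hπ]
      have : π₀ d x = 0 :=
        Prod.ext (funext fun j => (hx.1 j).weightedHomogeneousComponent_ne _ hde)
          (funext fun j => (hx.2 j).weightedHomogeneousComponent_ne _ (by omega))
      rw [this]
      rfl
    · intro x
      obtain ⟨x, rfl⟩ := Submodule.Quotient.mk_surjective (D.N n) x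
      have hB : x ∈ ⨆ d, B n d := by
        have hx : x = ∑ j, ((Pi.single j (x.1 j), 0) : Free K c n) +
            ∑ j, ((0, Pi.single j (x.2 j)) : Free K c n) := by
          ext i
          · simp [Prod.fst_sum, Finset.univ_sum_single]
          · simp [Prod.snd_sum, Finset.univ_sum_single]
        have hsing : ∀ (d : ℤ) (p : PolyP K c n), Hmg d p → ∀ j i : Fin n,
            Hmg d ((Pi.single j p : Fin n → PolyP K c n) i) := by
          intro d p hp j i
          rw [Pi.single_apply]
          split_ifs
          · exact hp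
          · exact isWeightedHomogeneous_zero _ _ _
        rw [hx]
        refine add_mem (sum_mem fun j _ => ?_) (sum_mem fun j _ => ?_)
        · generalize x.1 j = p
          induction p using MvPolynomial.induction_on' with
          | monomial m a =>
            exact AddSubgroup.mem_iSup_of_mem (Finsupp.weight (fun _ => (1 : ℤ)) m)
              ⟨hsing _ _ (isWeightedHomogeneous_monomial _ _ _ rfl) j,
                fun _ => isWeightedHomogeneous_zero _ _ _⟩
          | add p q hp hq =>
            have : ((Pi.single j (p + q), 0) : Free K c n) =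
                (Pi.single j p, 0) + (Pi.single j q, 0) := by simp [Pi.single_add]
            rw [this]
            exact add_mem hp hq
        · generalize x.2 j = p
          induction p using MvPolynomial.induction_on' with
          | monomial m a =>
            exact AddSubgroup.mem_iSup_of_mem (Finsupp.weight (fun _ => (1 : ℤ)) m + 1)
              ⟨fun _ => isWeightedHomogeneous_zero _ _ _,
                hsing _ _ (isWeightedHomogeneous_monomial _ _ _ (by simp)) j⟩
          | add p q hp hq =>
            have : ((0, Pi.single j (p + q)) : Free K c n) =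
                (0, Pi.single j p) + (0, Pi.single j q) := by simp [Pi.single_add]
            rw [this]
            exact add_mem hp hq
      have : (⨆ d, A n d) = (⨆ d, B n d).map (D.N n).mkQ.toAddMonoidHom :=
        (AddSubgroup.map_iSup _ _).symm
      rw [this]
      exact ⟨x, hB, rfl⟩
  · rintro n d k p _ hp ⟨x, hx, rfl⟩
    refine ⟨p • x, ⟨fun j => ?_, fun j => ?_⟩, rfl⟩
    · have := (hmg_of_isHomogeneous hp).mul (hx.1 j)
      rw [add_comm] at this
      exact this
    · have := (hmg_of_isHomogeneous hp).mul (hx.2 j)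
      have h : (k : ℤ) + (d - 1) = d + k - 1 := by ring
      rw [h] at this
      exact this
  · rintro m n e he d _ ⟨x, hx, rfl⟩
    have hpush : ∀ (d : ℤ) (a : Fin m → PolyP K c m), (∀ j, Hmg d (a j)) →
        ∀ i, Hmg d (push e a i) := by
      intro d a ha i
      refine IsWeightedHomogeneous.sum _ _ _ fun j _ => ?_
      split_ifs
      · exact (ha j).rename' _
      · exact isWeightedHomogeneous_zero _ _ _
    exact ⟨(push e x.1, push e x.2), ⟨hpush _ _ hx.1, hpush _ _ hx.2⟩, rfl⟩

end Data

end Pool.Agent.Lib.MP_a29b63_ag
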