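import Pool.Agent.Lib.MP_a29b63_ag.Dim
import Pool.Agent.Lib.MP_a29b63_ag.Graded

/-! The three examples. -/

set_option linter.unusedSectionVars false

namespace Pool.Agent.Lib.MP_a29b63_ag

universe u

open MvPolynomial CategoryTheory

variable {K : Type u} [Field K] {c : ℕ}

/-- the periodic pattern of projective dimensions -/
def Pattern {C : IndexCat} (M : RepModule K c C) (q : ℕ) : Prop :=
  ∀ n : ℕ, 1 ≤ n → projectiveDimension (M.obj n) =
    ((if q ∣ n + 1 then c * n else c * n - 1 : ℕ) : WithBot ℕ∞)

lemma X_mem_I {C : IndexCat} (D : Data K c C) (hf : D.f = Polynomial.X) (n : ℕ) (j : Fin n) :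
    (X (D.o, j) - MvPolynomial.C ((fun _ => (0 : K)) j)) * 1 ∈ D.I n := by
  have := mem_idl (D.r n) (Finset.mem_univ (D.o, j))
  rw [D.r_eq hf] at this
  simp only [map_zero, sub_zero, mul_one, Data.I, D.r_eq hf]
  exact this

section alternating

/-- the sign of `j - i` -/
def sg (K : Type u) [Field K] {n : ℕ} (i j : Fin n) : K :=
  if i < j then 1 else if j < i then -1 else 0

/-- partial sums -/
def ps {n : ℕ} (v : Fin n → K) (k : ℕ) : K := ∑ j : Fin n, if (j : ℕ) < k then v j else 0

lemma ps_zero {n : ℕ} (v : Fin n → K) : ps v 0 = 0 := by simp [ps]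

lemma ps_succ {n : ℕ} (v : Fin n → K) (i : Fin n) : ps v (i + 1) = ps v i + v i := by
  have : v i = ∑ j : Fin n, if j = i then v j else 0 := by simp
  rw [ps, ps, this, ← Finset.sum_add_distrib]
  refine Finset.sum_congr rfl fun j _ => ?_
  have h : j = i ↔ (j : ℕ) = i := Fin.ext_iff
  simp only [h]
  split_ifs <;> first | omega | simp

lemma sum_sg {n : ℕ} (v : Fin n → K) (i : Fin n) :
    ∑ j, sg K i j * v j = ps v n - ps v (i + 1) - ps v i := by
  rw [ps, ps, ps, ← Finset.sum_sub_distrib, ← Finset.sum_sub_distrib]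
  refine Finset.sum_congr rfl fun j _ => ?_
  have hj := j.2
  simp only [sg, Fin.lt_def]
  split_ifs <;> first | omega | simp

lemma ps_alt {n : ℕ} (t : K) (k : ℕ) (hk : k ≤ n) :
    ps (fun j : Fin n => (-1 : K) ^ (j : ℕ) * t) k = if Even k then 0 else t := by
  induction k with
  | zero => simp [ps_zero]
  | succ k ih =>
    have := ps_succ (fun j : Fin n => (-1 : K) ^ (j : ℕ) * t) ⟨k, hk⟩
    simp only at this
    rw [this, ih (by omega)]
    rcases Nat.even_or_odd k with h | h
    · simp [h, Nat.even_add_one, h.neg_one_pow]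
    · simp [Nat.not_even_iff_odd.mpr h, Nat.even_add_one, h.neg_one_pow]

lemma sg_inj {n : ℕ} (hn : Even n) (v : Fin n → K) (hv : ∀ i, ∑ j, sg K i j * v j = 0) :
    v = 0 := by
  have h1 : ∀ k ≤ n, ps v k = if Even k then 0 else ps v n := by
    intro k hk
    induction k with
    | zero => simp [ps_zero]
    | succ k ih =>
      have h2 := hv ⟨k, hk⟩
      rw [sum_sg] at h2
      simp only at h2
      rw [ih (by omega)] at h2
      rcases Nat.even_or_odd k with h | h
      · simp only [h, if_true] at h2
        simp only [Nat.even_add_one, h, not_true, if_false]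
        linear_combination -h2
      · simp only [Nat.not_even_iff_odd.mpr h, if_false] at h2
        simp only [Nat.even_add_one, Nat.not_even_iff_odd.mpr h, not_false_iff, if_true]
        linear_combination -h2
  have h2 : ps v n = 0 := by simpa [hn] using h1 n le_rfl
  have h3 : ∀ k ≤ n, ps v k = 0 := fun k hk => by rw [h1 k hk, h2]; simp
  funext i
  have := ps_succ v i
  rw [h3 _ i.2, h3 _ i.2.le] at this
  simpa using this.symm

noncomputable def dataOI (K : Type u) [Field K] {c : ℕ} (o : Fin c) : Data K c IndexCat.OI where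
  o := o
  f := Polynomial.X
  monic := Polynomial.monic_X
  s n i j := MvPolynomial.C (sg K i j)
  s_map e he i j := by
    have he' : StrictMono e := he
    simp [polyMap, sg, he'.lt_iff_lt]

lemma dataOI_pattern (o : Fin c) : Pattern (dataOI K o).M 2 := by
  intro n hn
  split_ifs with h
  · have hodd : Odd n := by
      rcases Nat.even_or_odd n with h' | h'
      · exfalso
        obtain ⟨k, rfl⟩ := h'
        omega
      · exact h'
    refine (dataOI K o).pd_of_singular (fun _ => 0) (fun _ => by simp [dataOI])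
      (fun j => (-1 : K) ^ (j : ℕ) * 1) ⟨0, hn⟩ (by simp) (fun i => ?_) 1 (by simp)
      (X_mem_I _ rfl n)
    simp only [dataOI, eval_C]
    rw [sum_sg, ps_alt 1 n le_rfl, ps_alt 1 _ i.2, ps_alt 1 _ i.2.le]
    rcases Nat.even_or_odd (i : ℕ) with h' | h'
    · simp [Nat.not_even_iff_odd.mpr hodd, h', Nat.even_add_one]
    · simp [Nat.not_even_iff_odd.mpr hodd, Nat.not_even_iff_odd.mpr h', Nat.even_add_one]
  · have heven : Even n := by
      rcases Nat.even_or_odd n with h' | h'
      · exact h'
      · exfalso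
        obtain ⟨k, rfl⟩ := h'
        omega
    refine (dataOI K o).pd_of_isUnit hn 0 (by simp [dataOI]) ?_
    have h1 : IsUnit (Matrix.of (fun i j : Fin n => sg K i j)) := by
      rw [← Matrix.mulVec_injective_iff_isUnit]
      intro v w hvw
      have : v - w = 0 := sg_inj heven _ fun i => by
        have := congrFun hvw i
        simp only [Matrix.mulVec, dotProduct, Matrix.of_apply] at this
        simp only [Pi.sub_apply, mul_sub, Finset.sum_sub_distrib, this, sub_self]
      exact sub_eq_zero.mp this
    exact h1.map (((Ideal.Quotient.mk ((dataOI K o).I n)).comp MvPolynomial.C).mapMatrix)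

lemma dataOI_graded (o : Fin c) : (dataOI K o).M.IsGraded :=
  (dataOI K o).M_isGraded rfl fun _ _ _ => isWeightedHomogeneous_C _ _

end alternating

section rankOne

lemma isUnit_rankOne {R : Type u} [CommRing R] {n : ℕ} (ω : Fin n → R)
    (h : IsUnit (1 + ∑ j, ω j)) :
    IsUnit (Matrix.of fun i j : Fin n => (if i = j then 1 else 0) + ω j) := by
  rw [Matrix.isUnit_iff_isUnit_det]
  have h1 := Matrix.det_one_add_replicateCol_mul_replicateRow (ι := Unit) (fun _ : Fin n => (1 : R))
    ω
  have h2 : (Matrix.of fun i j : Fin n => (if i = j then 1 else 0) + ω j) =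
      1 + Matrix.replicateCol Unit (fun _ : Fin n => (1 : R)) * Matrix.replicateRow Unit ω := by
    ext i j
    simp [Matrix.mul_apply, Matrix.one_apply]
  rw [h2, h1]
  simpa [dotProduct] using h

noncomputable def dataP (K : Type u) [Field K] {c : ℕ} (o : Fin c) : Data K c IndexCat.FI where
  o := o
  f := Polynomial.X
  monic := Polynomial.monic_X
  s n i j := (if i = j then 1 else 0) + 1
  s_map e he i j := by
    simp only [he.inj.eq_iff]
    split_ifs <;> simp

lemma dataP_pattern (o : Fin c) : Pattern (dataP K o).M (ringChar K) := by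
  intro n hn
  split_ifs with h
  · refine (dataP K o).pd_of_singular (fun _ => 0) (fun _ => by simp [dataP])
      (fun _ => 1) ⟨0, hn⟩ rfl (fun i => ?_) 1 (by simp) (X_mem_I _ rfl n)
    have h1 := (ringChar.spec K (n + 1)).mpr h
    have h2 : ∀ j : Fin n, eval ((dataP K o).pt fun _ => 0) ((dataP K o).s n i j) * 1 =
        (if i = j then 1 else 0) + 1 := by
      intro j
      simp only [dataP]
      split_ifs <;> simp
    simp only [h2, Finset.sum_add_distrib]
    simp only [Finset.sum_ite_eq, Finset.mem_univ, if_true, Finset.sum_const, Finset.card_univ,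
      Fintype.card_fin, nsmul_eq_mul, mul_one]
    push_cast at h1
    linear_combination h1
  · refine (dataP K o).pd_of_isUnit hn 0 (by simp [dataP]) ?_
    have h1 : ((n + 1 : ℕ) : K) ≠ 0 := fun h' => h ((ringChar.spec K (n + 1)).mp h')
    have h2 := (IsUnit.mk0 _ h1).map
      ((Ideal.Quotient.mk ((dataP K o).I n)).comp MvPolynomial.C)
    have h3 := isUnit_rankOne (R := PolyP K c n ⧸ (dataP K o).I n) (fun _ : Fin n => 1) (by
      rw [map_natCast] at h2
      simpa [add_comm] using h2)
    have h4 : (Matrix.of ((dataP K o).s n)).map (Ideal.Quotient.mk ((dataP K o).I n)) =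
        Matrix.of fun i j : Fin n => (if i = j then 1 else 0) + 1 := by
      ext i j
      have hs : (dataP K o).s n i j = (if i = j then 1 else 0) + 1 := rfl
      simp only [Matrix.map_apply, Matrix.of_apply, hs]
      split_ifs <;> simp
    rw [h4]
    exact h3

lemma dataP_graded (o : Fin c) : (dataP K o).M.IsGraded := by
  refine (dataP K o).M_isGraded rfl fun n i j => ?_
  simp only [dataP]
  refine IsWeightedHomogeneous.add ?_ (isWeightedHomogeneous_one _ _)
  split_ifs
  · exact isWeightedHomogeneous_one _ _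
  · exact isWeightedHomogeneous_zero _ _ _

lemma isUnit_odd {R : Type u} [CommRing R] [Algebra K R] [CharZero K] {ι : Type}
    [DecidableEq ι] (x : ι → R) (hx : ∀ j, x j ^ 2 = 1) (T : Finset ι) :
    ∀ k : ℤ, Odd (k + T.card) → IsUnit ((k : R) + ∑ j ∈ T, x j) := by
  induction T using Finset.induction_on with
  | empty =>
    intro k hk
    have h1 : (k : K) ≠ 0 := by
      have : k ≠ 0 := by
        rintro rfl
        simp at hk
      exact_mod_cast this
    have h2 := (IsUnit.mk0 _ h1).map (algebraMap K R)
    simpa using h2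
  | insert w T hw ih =>
    intro k hk
    rw [Finset.card_insert_of_notMem hw] at hk
    have h1 := ih (k - 1) (by
      obtain ⟨l, hl⟩ := hk
      exact ⟨l - 1, by push_cast at hl; omega⟩)
    have h2 := ih (k + 1) (by
      obtain ⟨l, hl⟩ := hk
      exact ⟨l, by push_cast at hl; omega⟩)
    have h3 := h1.mul h2
    have h4 : (((k - 1 : ℤ) : R) + ∑ j ∈ T, x j) * (((k + 1 : ℤ) : R) + ∑ j ∈ T, x j) =
        ((k : R) + ∑ j ∈ insert w T, x j) * ((k : R) + ∑ j ∈ T, x j - x w) := by
      rw [Finset.sum_insert hw]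
      push_cast
      linear_combination hx w
    rw [h4] at h3
    exact isUnit_of_mul_isUnit_left h3

noncomputable def data0 (K : Type u) [Field K] {c : ℕ} (o : Fin c) : Data K c IndexCat.FI where
  o := o
  f := Polynomial.X ^ 2 - Polynomial.C 1
  monic := Polynomial.monic_X_pow_sub_C 1 two_ne_zero
  s n i j := (if i = j then 1 else 0) + X (o, j)
  s_map e he i j := by
    simp only [he.inj.eq_iff, map_add, polyMap_X]
    split_ifs <;> simp

lemma data0_r (o : Fin c) (n : ℕ) (j : Fin n) : (data0 K o).r n (o, j) = X (o, j) ^ 2 - 1 := by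
  simp [Data.r, gen, Data.F, data0]

lemma data0_pattern [CharZero K] (o : Fin c) : Pattern (data0 K o).M 2 := by
  intro n hn
  have hI : ∀ j : Fin n, (X (o, j) ^ 2 - 1 : PolyP K c n) ∈ (data0 K o).I n := by
    intro j
    rw [← data0_r]
    exact mem_idl _ (Finset.mem_univ _)
  split_ifs with h
  · have hodd : Odd n := by
      rcases Nat.even_or_odd n with h' | h'
      · exfalso
        obtain ⟨k, rfl⟩ := h'
        omega
      · exact h'
    let a : Fin n → K := fun j => (-1 : K) ^ (j : ℕ) * (-1)
    have ha : ∀ j, a j ^ 2 = 1 := fun j => by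
      rcases neg_one_pow_eq_or K (j : ℕ) with h' | h' <;> simp [a, h']
    have hpt : ∀ j, (data0 K o).pt a (o, j) = a j := fun j => by simp [Data.pt, data0]
    refine (data0 K o).pd_of_singular a (fun j => by simp [data0, ha])
      (fun _ => 1) ⟨0, hn⟩ rfl (fun i => ?_)
      (∏ j, MvPolynomial.C (1 / 2 : K) * (1 + MvPolynomial.C (a j) * X (o, j))) ?_ (fun j => ?_)
    · have h2 : ∀ j : Fin n, eval ((data0 K o).pt a) ((data0 K o).s n i j) * 1 =
          (if i = j then 1 else 0) + a j := by
        intro j
        rw [← hpt]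
        simp only [data0]
        split_ifs <;> simp
      simp only [h2, Finset.sum_add_distrib]
      have h3 := ps_alt (n := n) (-1 : K) n le_rfl
      simp only [ps, Fin.is_lt, if_true, Nat.not_even_iff_odd.mpr hodd, if_false] at h3
      simp only [Finset.sum_ite_eq, Finset.mem_univ, if_true, a, h3]
      ring
    · rw [map_prod]
      refine Finset.prod_eq_one fun j _ => ?_
      simp only [map_mul, map_add, eval_C, map_one, eval_X, hpt]
      linear_combination (1 / 2 : K) * ha j
    · rw [← Finset.mul_prod_erase _ _ (Finset.mem_univ j), ← mul_assoc]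
      refine Ideal.mul_mem_right _ _ ?_
      have h4 : (MvPolynomial.C (a j) : PolyP K c n) ^ 2 = 1 := by rw [← map_pow, ha, map_one]
      have h5 : (X ((data0 K o).o, j) - MvPolynomial.C (a j)) *
          (MvPolynomial.C (1 / 2 : K) * (1 + MvPolynomial.C (a j) * X (o, j))) =
          (MvPolynomial.C (1 / 2 : K) * MvPolynomial.C (a j)) *
            (X (o, j) ^ 2 - 1 : PolyP K c n) := by
        change (X (o, j) - MvPolynomial.C (a j)) * _ = _
        linear_combination (-(MvPolynomial.C (1 / 2 : K)) * X (o, j)) * h4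
      rw [h5]
      exact Ideal.mul_mem_left _ _ (hI j)
  · have heven : Even n := by
      rcases Nat.even_or_odd n with h' | h'
      · exact h'
      · exfalso
        obtain ⟨k, rfl⟩ := h'
        omega
    refine (data0 K o).pd_of_isUnit hn 1 (by simp [data0]) ?_
    have h2 := isUnit_odd (K := K) (R := PolyP K c n ⧸ (data0 K o).I n)
      (fun j : Fin n => Ideal.Quotient.mk _ (X (o, j))) (fun j => by
        rw [← map_pow, ← map_one (Ideal.Quotient.mk ((data0 K o).I n)), Ideal.Quotient.eq]
        exact hI j) Finset.univ 1 (by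
        obtain ⟨k, hk⟩ := heven
        exact ⟨k, by simp [hk]; ring⟩)
    have h3 := isUnit_rankOne (R := PolyP K c n ⧸ (data0 K o).I n)
      (fun j : Fin n => Ideal.Quotient.mk _ (X (o, j))) (by simpa using h2)
    have h4 : (Matrix.of ((data0 K o).s n)).map (Ideal.Quotient.mk ((data0 K o).I n)) =
        Matrix.of fun i j : Fin n => (if i = j then 1 else 0) +
          Ideal.Quotient.mk ((data0 K o).I n) (X (o, j)) := by
      ext i j
      have hs : (data0 K o).s n i j = (if i = j then 1 else 0) + X (o, j) := rfl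
      simp only [Matrix.map_apply, Matrix.of_apply, hs]
      split_ifs <;> simp
    rw [h4]
    exact h3

end rankOne

lemma not_linear {C : IndexCat} (M : RepModule K c C) (hc : 1 ≤ c) (q : ℕ) (hq : 2 ≤ q)
    (h : Pattern M q) :
    ¬ ∃ (A B : ℤ) (n₀ : ℕ), ∀ n : ℕ, n₀ ≤ n →
      ∃ d : ℕ, projectiveDimension (M.obj n) = (d : WithBot ℕ∞) ∧ (d : ℤ) = A * n + B := by
  rintro ⟨A, B, n₀, H⟩
  have key : ∀ n : ℕ, n₀ ≤ n → 1 ≤ n →
      A * n + B = if q ∣ n + 1 then (c : ℤ) * n else (c : ℤ) * n - 1 := by
    intro n h1 h2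
    obtain ⟨d, hd, hd'⟩ := H n h1
    rw [h n h2] at hd
    have hd2 : (if q ∣ n + 1 then c * n else c * n - 1 : ℕ) = d := by exact_mod_cast hd
    rw [← hd', ← hd2]
    have : 1 ≤ c * n := Nat.mul_pos hc h2
    split_ifs
    · push_cast; rfl
    · push_cast [Nat.cast_sub this]; rfl
  obtain ⟨t, ht⟩ : ∃ t : ℕ, t + 1 = q * (n₀ + 1) := ⟨q * (n₀ + 1) - 1, by
    have : 1 ≤ q * (n₀ + 1) := Nat.mul_pos (by omega) (by omega)
    omega⟩
  have ht1 : n₀ + 1 ≤ t := by nlinarith
  have e1 := key t (by omega) (by omega)
  have e2 := key (t + q) (by omega) (by omega)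
  have e3 := key (t + 1) (by omega) (by omega)
  have d1 : q ∣ t + 1 := ⟨_, ht⟩
  have d2 : q ∣ t + q + 1 := by
    have : t + q + 1 = (t + 1) + q := by ring
    rw [this]
    exact dvd_add d1 dvd_rfl
  have d3 : ¬ q ∣ t + 1 + 1 := fun h' => by
    have := (Nat.dvd_add_right d1).mp h'
    have := Nat.le_of_dvd one_pos this
    omega
  rw [if_pos d1] at e1
  rw [if_pos d2] at e2
  rw [if_neg d3] at e3
  push_cast at e2 e3
  have hq' : (q : ℤ) ≠ 0 := by exact_mod_cast (by omega : q ≠ 0)
  have hA : A = c := by
    have : (A - c) * q = 0 := by linear_combination e2 - e1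
    rcases mul_eq_zero.mp this with h' | h'
    · linarith
    · exact absurd h' hq'
  subst hA
  linarith

theorem main (K : Type u) [Field K] (c : ℕ) (hc : 1 ≤ c) (C : IndexCat) :
    ∃ (M : RepModule K c C) (q : ℕ), M.FG ∧
      (C = IndexCat.OI ∨ ringChar K ≠ 0 → M.IsGraded) ∧ 2 ≤ q ∧ Pattern M q := by
  let o : Fin c := ⟨0, hc⟩
  cases C with
  | OI => exact ⟨(dataOI K o).M, 2, Data.M_FG _, fun _ => dataOI_graded o, le_rfl,
      dataOI_pattern o⟩
  | FI =>
    by_cases h : ringChar K = 0
    · have : CharZero K := by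
        have := ringChar.charP K
        rw [h] at this
        exact CharP.charP_to_charZero K
      exact ⟨(data0 K o).M, 2, Data.M_FG _, fun h' => by simp [h] at h', le_rfl, data0_pattern o⟩
    · refine ⟨(dataP K o).M, ringChar K, Data.M_FG _, fun _ => dataP_graded o, ?_, dataP_pattern o⟩
      have := CharP.ringChar_ne_one (R := K)
      omega

end Pool.Agent.Lib.MP_a29b63_ag
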