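import Pool.Agent.Lib.MP_a29b63_ag.IdealDefs
import Pool.Agent.Lib.MP_a29b63_ag.Examples

/-! Idealization: the counterexample as a quotient `P / I` when there are two colours. -/

set_option linter.unusedSectionVars false

namespace Pool.Agent.Lib.MP_a29b63_ag

universe u

open MvPolynomial CategoryTheory

/-- The module `P / I`: in width `n` it is `P_n / I_n`, and `e` acts by the map induced by
`x_{i,j} ↦ x_{i,e j}`. -/
noncomputable def quotModule {K : Type u} [Field K] {c : ℕ} {C : IndexCat}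
    (I : (n : ℕ) → Ideal (PolyP K c n)) (h : IsRepIdeal K c C I) : RepModule K c C where
  obj n := ModuleCat.of (PolyP K c n) (PolyP K c n ⧸ I n)
  map {m n} e he := Ideal.quotientMap (I n) (polyMap K c e).toRingHom (h m n e he)
  map_add e he x y := map_add (Ideal.quotientMap _ (polyMap K c e).toRingHom (h _ _ e he)) x y
  map_id n he x := by
    obtain ⟨p, rfl⟩ := Ideal.Quotient.mk_surjective x
    change Ideal.Quotient.mk _ (MvPolynomial.rename id p) = _
    rw [MvPolynomial.rename_id]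
    rfl
  map_comp e f he hf hfe x := by
    obtain ⟨p, rfl⟩ := Ideal.Quotient.mk_surjective x
    change Ideal.Quotient.mk _ (polyMap K c (f ∘ e) p) =
      Ideal.Quotient.mk _ (polyMap K c f (polyMap K c e p))
    simp only [polyMap, MvPolynomial.rename_rename]
    rfl
  map_smul e he p x := by
    obtain ⟨r, rfl⟩ := Ideal.Quotient.mk_surjective x
    change Ideal.Quotient.mk _ (polyMap K c e (p * r)) =
      Ideal.Quotient.mk _ (polyMap K c e p * polyMap K c e r)
    rw [map_mul]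

variable {K : Type u} [Field K] {c : ℕ}

lemma quotModule_isQuotBy {C : IndexCat} (I : (n : ℕ) → Ideal (PolyP K c n))
    (h : IsRepIdeal K c C I) : (quotModule I h).IsQuotBy I :=
  ⟨fun n => (I n).mkQ, fun n => Submodule.mkQ_surjective (I n),
    fun n _ => Submodule.Quotient.mk_eq_zero (I n), fun _ _ _ _ _ => rfl⟩

lemma quotModule_FG {C : IndexCat} (I : (n : ℕ) → Ideal (PolyP K c n))
    (h : IsRepIdeal K c C I) : (quotModule I h).FG := by
  refine ⟨{⟨0, (Ideal.Quotient.mk (I 0) 1 : PolyP K c 0 ⧸ I 0)⟩}, Set.finite_singleton _, ?_⟩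
  intro N hN hG n
  have he : C.IsHom (Fin.elim0 : Fin 0 → Fin n) := by
    cases C
    · exact Subsingleton.strictMono _
    · exact Function.injective_of_subsingleton _
  have h1 := hN 0 n Fin.elim0 he _ (hG _ rfl)
  have h2 : (quotModule I h).map Fin.elim0 he (Ideal.Quotient.mk (I 0) 1 : PolyP K c 0 ⧸ I 0) =
      (Ideal.Quotient.mk (I n) 1 : PolyP K c n ⧸ I n) := by
    change Ideal.Quotient.mk _ (polyMap K c _ 1) = _
    rw [map_one]
  rw [eq_top_iff]
  intro x _
  obtain ⟨p, rfl⟩ := Ideal.Quotient.mk_surjective (I := I n) x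
  have h3 := (N n).smul_mem p h1
  rw [h2] at h3
  have h4 : (p • (Ideal.Quotient.mk (I n) 1 : PolyP K c n ⧸ I n)) = Ideal.Quotient.mk (I n) p := by
    change Ideal.Quotient.mk (I n) (p * 1) = _
    rw [mul_one]
  rw [← h4]
  exact h3

namespace Data

variable {C : IndexCat} (D : Data K c C) (y : Fin c)

/-- the map `a ↦ ∑ j, y_j a_j` -/
noncomputable def φ (K : Type u) [Field K] {c : ℕ} (y : Fin c) (n : ℕ) :
    (Fin n → PolyP K c n) →ₗ[PolyP K c n] PolyP K c n where
  toFun a := ∑ j, X (y, j) * a j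
  map_add' a b := by simp [mul_add, Finset.sum_add_distrib]
  map_smul' p a := by
    simp only [Pi.smul_apply, smul_eq_mul, RingHom.id_apply, Finset.mul_sum]
    exact Finset.sum_congr rfl fun j _ => by ring

lemma φ_apply (n : ℕ) (a : Fin n → PolyP K c n) : φ K y n a = ∑ j, X (y, j) * a j := rfl

/-- relations among the first generators -/
noncomputable def A (n : ℕ) : Submodule (PolyP K c n) (Fin n → PolyP K c n) :=
  (D.N n).comap (LinearMap.inl _ _ _)

lemma mem_A {n : ℕ} {a : Fin n → PolyP K c n} : a ∈ D.A n ↔ ((a, 0) : Free K c n) ∈ D.N n :=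
  Iff.rfl

/-- the ideal -/
noncomputable def Id (n : ℕ) : Ideal (PolyP K c n) := (D.A n).map (φ K y n)

lemma Id_rep : IsRepIdeal K c C (D.Id y) := by
  rintro m n e he _ ⟨a, ha, rfl⟩
  refine ⟨push e a, ?_, ?_⟩
  · have h1 := D.pushF_mem he (D.mem_A.mp ha)
    change (push e a, push e 0) ∈ D.N n at h1
    rw [push_zero] at h1
    exact h1
  · rw [φ_apply, φ_apply, sum_mul_push, map_sum]
    simp only [map_mul, polyMap_X]

/-- the variables of colour `y` -/
def S (y : Fin c) (n : ℕ) : Finset (Fin c × Fin n) := Finset.univ.image fun j => (y, j)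

lemma mem_S (n : ℕ) (j : Fin n) : (y, j) ∈ S y n := Finset.mem_image_of_mem _ (Finset.mem_univ j)

lemma card_S (n : ℕ) : (S y n).card = n := by
  rw [S, Finset.card_image_of_injective _ (Prod.mk_right_injective y)]
  simp

noncomputable def Y (n : ℕ) : Ideal (PolyP K c n) := idl (D.r n) (S y n)

variable {y}

lemma r_y (hy : y ≠ D.o) (n : ℕ) (j : Fin n) : D.r n (y, j) = X (y, j) := by
  simp [r, gen, F, hy]

lemma Y_le_J (hy : y ≠ D.o) (n : ℕ) (i : Fin n) : D.Y y n ≤ D.J n i := by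
  refine idl_mono _ fun w hw => ?_
  obtain ⟨j, -, rfl⟩ := Finset.mem_image.mp hw
  exact Finset.mem_erase.mpr ⟨fun h => hy (congrArg Prod.fst h), Finset.mem_univ _⟩

lemma φ_mem (hy : y ≠ D.o) (n : ℕ) (a : Fin n → PolyP K c n) : φ K y n a ∈ D.Y y n := by
  rw [φ_apply]
  refine Ideal.sum_mem (D.Y y n) fun j _ => Ideal.mul_mem_right _ (D.Y y n) ?_
  rw [← D.r_y hy]
  exact mem_idl _ (mem_S y n j)

lemma exists_φ (hy : y ≠ D.o) (n : ℕ) {p : PolyP K c n} (hp : p ∈ D.Y y n) :
    ∃ a, φ K y n a = p := by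
  have : D.Y y n ≤ LinearMap.range (φ K y n) := by
    rw [Y, idl, Ideal.span_le]
    rintro _ ⟨w, hw, rfl⟩
    obtain ⟨j, -, rfl⟩ := Finset.mem_image.mp hw
    refine ⟨Pi.single j 1, ?_⟩
    rw [D.r_y hy, φ_apply]
    simp [Pi.single_apply]
  exact this hp

lemma mem_A_of_φ (hy : y ≠ D.o) (n : ℕ) {a : Fin n → PolyP K c n} (ha : φ K y n a = 0) :
    a ∈ D.A n := by
  have h1 : ∀ j, a j ∈ D.Y y n := by
    intro j
    have h2 : D.r n (y, j) * a j ∈ idl (D.r n) ((S y n).erase (y, j)) := by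
      rw [φ_apply, ← Finset.add_sum_erase _ _ (Finset.mem_univ j)] at ha
      rw [D.r_y hy, eq_neg_of_add_eq_zero_left ha]
      refine neg_mem (Ideal.sum_mem _ fun k hk => Ideal.mul_mem_right _ _ ?_)
      rw [← D.r_y hy]
      exact mem_idl _ (Finset.mem_erase.mpr
        ⟨fun h => (Finset.mem_erase.mp hk).1 (congrArg Prod.snd h), mem_S y n k⟩)
    exact idl_mono _ (Finset.erase_subset _ _)
      (D.r_reg n _ _ (Finset.notMem_erase _ _) _ h2)
  rw [mem_A, mem_N]
  refine ⟨fun j => D.J_le_I n j (D.Y_le_J hy n j (h1 j)), fun i => ?_⟩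
  rw [form_apply]
  simp only [Pi.zero_apply, mul_zero, add_zero]
  exact Ideal.sum_mem _ fun j _ => Ideal.mul_mem_left _ _ (D.Y_le_J hy n i (h1 j))

lemma Id_le_Y (hy : y ≠ D.o) (n : ℕ) : D.Id y n ≤ D.Y y n := by
  rintro _ ⟨a, -, rfl⟩
  exact D.φ_mem hy n a

/-- the first generators generate -/
def Gen (n : ℕ) : Prop := ∀ i : Fin n, ∃ (j : Fin n) (v : PolyP K c n), v * D.s n i j - 1 ∈ D.J n i

lemma surj_inl {n : ℕ} (h : D.Gen n) :
    Function.Surjective ((D.N n).mkQ ∘ₗ LinearMap.inl _ _ _) := by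
  have h1 : ∀ i : Fin n, (D.N n).mkQ (0, Pi.single i 1) ∈
      LinearMap.range ((D.N n).mkQ ∘ₗ LinearMap.inl _ _ _) := by
    intro i
    obtain ⟨j, v, hv⟩ := h i
    refine ⟨Pi.single j (v * D.r n (D.o, i)), ?_⟩
    change Submodule.Quotient.mk _ = Submodule.Quotient.mk _
    rw [Submodule.Quotient.eq, mem_N]
    refine ⟨fun k => ?_, fun k => ?_⟩
    · simp only [LinearMap.inl_apply, Prod.fst_sub, sub_zero, Pi.single_apply]
      split_ifs
      · exact Ideal.mul_mem_left _ _ (mem_idl _ (Finset.mem_univ _))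
      · exact zero_mem _
    · rw [form_apply]
      simp only [LinearMap.inl_apply, Prod.fst_sub, Prod.snd_sub, sub_zero, zero_sub,
        Pi.neg_apply, Pi.single_apply, mul_ite, mul_zero, Finset.sum_ite_eq', Finset.mem_univ,
        if_true]
      split_ifs with hk
      · subst hk
        have : D.s n k j * (v * D.r n (D.o, k)) + D.r n (D.o, k) * -1 =
            D.r n (D.o, k) * (v * D.s n k j - 1) := by ring
        rw [this]
        exact Ideal.mul_mem_left _ _ hv
      · simp only [neg_zero, mul_zero, add_zero]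
        refine Ideal.mul_mem_left _ _ (Ideal.mul_mem_left _ _ (mem_idl _ ?_))
        exact Finset.mem_erase.mpr ⟨fun h => hk (congrArg Prod.snd h).symm, Finset.mem_univ _⟩
  intro x
  obtain ⟨⟨a, b⟩, rfl⟩ := Submodule.Quotient.mk_surjective (D.N n) x
  have h2 : ((a, b) : Free K c n) = (a, 0) + ∑ i, b i • ((0, Pi.single i 1) : Free K c n) := by
    ext i
    · simp [Prod.fst_sum]
    · simp [Prod.snd_sum, Pi.single_apply]
  change (D.N n).mkQ (a, b) ∈ LinearMap.range ((D.N n).mkQ ∘ₗ LinearMap.inl _ _ _)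
  rw [h2, map_add, map_sum]
  refine add_mem ⟨a, rfl⟩ (Submodule.sum_mem _ fun i _ => ?_)
  rw [map_smul]
  exact Submodule.smul_mem _ _ (h1 i)

noncomputable def eqv {n : ℕ} (h : D.Gen n) :
    ((Fin n → PolyP K c n) ⧸ D.A n) ≃ₗ[PolyP K c n] D.Mod n :=
  (Submodule.quotEquivOfEq _ _ (by
    ext a
    rw [mem_A, LinearMap.mem_ker]
    exact (Submodule.Quotient.mk_eq_zero _).symm)).trans
    (LinearMap.quotKerEquivOfSurjective _ (D.surj_inl h))

noncomputable def ι (y : Fin c) (n : ℕ) :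
    ((Fin n → PolyP K c n) ⧸ D.A n) →ₗ[PolyP K c n] (PolyP K c n ⧸ D.Id y n) :=
  Submodule.mapQ _ _ (φ K y n) fun a ha => ⟨a, ha, rfl⟩

noncomputable def π (hy : y ≠ D.o) (n : ℕ) :
    (PolyP K c n ⧸ D.Id y n) →ₗ[PolyP K c n] (PolyP K c n ⧸ D.Y y n) :=
  Submodule.mapQ _ _ LinearMap.id (D.Id_le_Y hy n)

lemma ι_inj (hy : y ≠ D.o) (n : ℕ) : Function.Injective (D.ι y n) := by
  rw [injective_iff_map_eq_zero]
  intro x hx
  obtain ⟨a, rfl⟩ := Submodule.Quotient.mk_surjective _ x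
  change Submodule.Quotient.mk (φ K y n a) = 0 at hx
  rw [Submodule.Quotient.mk_eq_zero] at hx ⊢
  obtain ⟨b, hb, hab⟩ := hx
  have h1 : a - b ∈ D.A n := D.mem_A_of_φ hy n (by rw [map_sub, hab, sub_self])
  simpa using add_mem h1 hb

lemma π_surj (hy : y ≠ D.o) (n : ℕ) : Function.Surjective (D.π hy n) := by
  intro x
  obtain ⟨p, rfl⟩ := Submodule.Quotient.mk_surjective _ x
  exact ⟨Submodule.Quotient.mk p, rfl⟩

lemma exact_ιπ (hy : y ≠ D.o) (n : ℕ) : Function.Exact (D.ι y n) (D.π hy n) := by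
  intro x
  obtain ⟨p, rfl⟩ := Submodule.Quotient.mk_surjective _ x
  constructor
  · intro h
    change Submodule.Quotient.mk p = 0 at h
    rw [Submodule.Quotient.mk_eq_zero] at h
    obtain ⟨a, rfl⟩ := D.exists_φ hy n h
    exact ⟨Submodule.Quotient.mk a, rfl⟩
  · rintro ⟨z, hz⟩
    obtain ⟨a, rfl⟩ := Submodule.Quotient.mk_surjective _ z
    rw [← hz]
    change Submodule.Quotient.mk (φ K y n a) = 0
    rw [Submodule.Quotient.mk_eq_zero]
    exact D.φ_mem hy n a

lemma pd_Id (hy : y ≠ D.o) {n : ℕ} (h : D.Gen n) (d : ℕ) (hd : n ≤ d)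
    (hM : projectiveDimension (D.M.obj n) = d) :
    projectiveDimension (ModuleCat.of (PolyP K c n) (PolyP K c n ⧸ D.Id y n)) = d := by
  have hY : HasProjectiveDimensionLT (ModuleCat.of (PolyP K c n) (PolyP K c n ⧸ D.Y y n))
      (d + 1) := by
    have h1 : HasProjectiveDimensionLT (ModuleCat.of (PolyP K c n) (PolyP K c n ⧸ D.Y y n))
        ((S y n).card + 1) := lt_quot (D.r_reg n) (S y n)
    rw [card_S] at h1
    exact hasProjectiveDimensionLT_of_ge _ (n + 1) _ (by omega)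
  have hS := shortExact_of (D.ι y n) (D.π hy n) (D.exact_ιπ hy n) (D.ι_inj hy n) (D.π_surj hy n)
  have h1 : HasProjectiveDimensionLT (ModuleCat.of (PolyP K c n) (D.Mod n)) (d + 1) :=
    (projectiveDimension_le_iff (D.M.obj n) d).mp hM.le
  have h2 : ¬ HasProjectiveDimensionLT (ModuleCat.of (PolyP K c n) (D.Mod n)) d :=
    (projectiveDimension_ge_iff (D.M.obj n) d).mp hM.ge
  refine pd_eq d ?_ fun h3 => h2 ?_
  · exact hS.hasProjectiveDimensionLT_X₂ (d + 1)
      (lt_of_retract (D.eqv h).toLinearMap (D.eqv h).symm.toLinearMap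
        (D.eqv h).symm_apply_apply _ h1) hY
  · exact lt_of_retract (D.eqv h).symm.toLinearMap (D.eqv h).toLinearMap
      (D.eqv h).apply_symm_apply _ (hS.hasProjectiveDimensionLT_X₁ d h3 hY)

lemma cmp_nat {σ : Type} (d : ℕ) (p : MvPolynomial σ K) :
    homogeneousComponent d p = cmp (d : ℤ) p := by
  classical
  ext m
  rw [coeff_homogeneousComponent, coeff_weightedHomogeneousComponent, weight_int,
    Finsupp.degree_eq_weight_one]
  simp only [Nat.cast_inj]
  rfl

lemma Id_hmg (hf : D.f = Polynomial.X) (hs : ∀ n i j, Hmg 0 (D.s n i j)) (n d : ℕ) :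
    ∀ p ∈ D.Id y n, homogeneousComponent d p ∈ D.Id y n := by
  rintro _ ⟨a, ha, rfl⟩
  refine ⟨fun j => cmp ((d : ℤ) - 1) (a j), ?_, ?_⟩
  · have ha' := D.mem_N.mp (D.mem_A.mp ha)
    refine D.mem_A.mpr (D.mem_N.mpr ⟨fun j => ?_, fun i => ?_⟩)
    · have := ha'.1 j
      rw [I, idl, D.r_eq hf] at this ⊢
      exact cmp_mem_span _ _ this
    · have h1 := ha'.2 i
      have h2 : D.form n i (fun j => cmp ((d : ℤ) - 1) (a j), 0) =
          cmp ((d : ℤ) - 1) (D.form n i (a, 0)) := by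
        rw [form_apply, form_apply]
        simp only [Pi.zero_apply, mul_zero, add_zero, map_sum]
        refine Finset.sum_congr rfl fun j _ => ?_
        rw [cmp_mul (hs n i j), sub_zero]
      rw [h2]
      rw [J, idl, D.r_eq hf] at h1 ⊢
      exact cmp_mem_span _ _ h1
  · rw [cmp_nat, φ_apply, φ_apply, map_sum]
    refine Finset.sum_congr rfl fun j _ => ?_
    rw [cmp_mul (isWeightedHomogeneous_X K (fun _ => (1 : ℤ)) (y, j))]

end Data

lemma exists_ne_fin {n : ℕ} (hn : 2 ≤ n) (i : Fin n) : ∃ j, j ≠ i :=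
  haveI : Nontrivial (Fin n) := Fin.nontrivial_iff_two_le.mpr hn
  exists_ne i

lemma dataOI_gen (o : Fin c) {n : ℕ} (hn : 2 ≤ n) : (dataOI K o).Gen n := by
  intro i
  obtain ⟨j, hj⟩ := exists_ne_fin hn i
  refine ⟨j, MvPolynomial.C (sg K i j), ?_⟩
  have h1 : sg K i j * sg K i j = 1 := by
    rcases lt_or_gt_of_ne hj with h | h
    · simp [sg, h, h.not_gt]
    · simp [sg, h]
  change MvPolynomial.C (sg K i j) * MvPolynomial.C (sg K i j) - 1 ∈ _
  rw [← map_mul, h1, map_one, sub_self]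
  exact zero_mem _

lemma dataP_gen (o : Fin c) {n : ℕ} (hn : 2 ≤ n) : (dataP K o).Gen n := by
  intro i
  obtain ⟨j, hj⟩ := exists_ne_fin hn i
  refine ⟨j, 1, ?_⟩
  change 1 * ((if i = j then 1 else 0) + 1) - 1 ∈ _
  rw [if_neg hj.symm]
  simp

lemma data0_gen (o : Fin c) {n : ℕ} (hn : 2 ≤ n) : (data0 K o).Gen n := by
  intro i
  obtain ⟨j, hj⟩ := exists_ne_fin hn i
  refine ⟨j, X (o, j), ?_⟩
  change X (o, j) * ((if i = j then 1 else 0) + X (o, j)) - 1 ∈ _
  rw [if_neg hj.symm, zero_add, ← sq, ← data0_r]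
  exact mem_idl _ (Finset.mem_erase.mpr ⟨fun h => hj (congrArg Prod.snd h), Finset.mem_univ _⟩)

lemma pattern_Id {C : IndexCat} (D : Data K c C) (hc : 2 ≤ c) {y : Fin c} (hy : y ≠ D.o) (q : ℕ)
    (hG : ∀ n, 2 ≤ n → D.Gen n) (h : Pattern D.M q) (n : ℕ) (hn : 2 ≤ n) :
    projectiveDimension ((quotModule (D.Id y) (D.Id_rep y)).obj n) =
      ((if q ∣ n + 1 then c * n else c * n - 1 : ℕ) : WithBot ℕ∞) := by
  refine D.pd_Id hy (hG n hn) _ ?_ (h n (by omega))
  have : 2 * n ≤ c * n := Nat.mul_le_mul_right n hc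
  split_ifs <;> omega

theorem main_ideal (K : Type u) [Field K] (c : ℕ) (hc : 2 ≤ c) (C : IndexCat) :
    ∃ (I : (n : ℕ) → Ideal (PolyP K c n)) (h : IsRepIdeal K c C I) (q : ℕ),
      (quotModule I h).FG ∧
      (C = IndexCat.OI ∨ ringChar K ≠ 0 →
        ∀ (n d : ℕ), ∀ p ∈ I n, MvPolynomial.homogeneousComponent d p ∈ I n) ∧
      2 ≤ q ∧
      (∀ n : ℕ, 2 ≤ n → projectiveDimension ((quotModule I h).obj n) =
        ((if q ∣ n + 1 then c * n else c * n - 1 : ℕ) : WithBot ℕ∞)) ∧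
      ¬ ∃ (A B : ℤ) (n₀ : ℕ), ∀ n : ℕ, n₀ ≤ n →
        ∃ d : ℕ, projectiveDimension ((quotModule I h).obj n) = (d : WithBot ℕ∞) ∧
          (d : ℤ) = A * n + B := by
  let o : Fin c := ⟨0, by omega⟩
  let y : Fin c := ⟨1, by omega⟩
  have hy : y ≠ o := by simp [o, y]
  have key : ∀ {C : IndexCat} (D : Data K c C) (hy : y ≠ D.o) (q : ℕ) (hq : 2 ≤ q)
      (hG : ∀ n, 2 ≤ n → D.Gen n) (h : Pattern D.M q),
      ¬ ∃ (A B : ℤ) (n₀ : ℕ), ∀ n : ℕ, n₀ ≤ n →
        ∃ d : ℕ, projectiveDimension ((quotModule (D.Id y) (D.Id_rep y)).obj n) =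
          (d : WithBot ℕ∞) ∧ (d : ℤ) = A * n + B := by
    rintro C D hy q hq hG h ⟨A, B, n₀, H⟩
    refine not_linear D.M (by omega) q hq h ⟨A, B, n₀ + 2, fun n hn => ?_⟩
    rw [h n (by omega), ← pattern_Id D hc hy q hG h n (by omega)]
    exact H n (by omega)
  cases C with
  | OI =>
    exact ⟨_, (dataOI K o).Id_rep y, 2, quotModule_FG _ _,
      fun _ => (dataOI K o).Id_hmg rfl fun _ _ _ => isWeightedHomogeneous_C _ _, le_rfl,
      pattern_Id _ hc hy 2 (fun _ => dataOI_gen o) (dataOI_pattern o),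
      key _ hy 2 le_rfl (fun _ => dataOI_gen o) (dataOI_pattern o)⟩
  | FI =>
    by_cases h : ringChar K = 0
    · have : CharZero K := by
        have := ringChar.charP K
        rw [h] at this
        exact CharP.charP_to_charZero K
      exact ⟨_, (data0 K o).Id_rep y, 2, quotModule_FG _ _, fun h' => by simp at h', le_rfl,
        pattern_Id _ hc hy 2 (fun _ => data0_gen o) (data0_pattern o),
        key _ hy 2 le_rfl (fun _ => data0_gen o) (data0_pattern o)⟩
    · have hq : 2 ≤ ringChar K := by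
        have := CharP.ringChar_ne_one (R := K)
        omega
      refine ⟨_, (dataP K o).Id_rep y, ringChar K, quotModule_FG _ _,
        fun _ => (dataP K o).Id_hmg rfl fun n i j => ?_, hq,
        pattern_Id _ hc hy _ (fun _ => dataP_gen o) (dataP_pattern o),
        key _ hy _ hq (fun _ => dataP_gen o) (dataP_pattern o)⟩
      simp only [dataP]
      refine IsWeightedHomogeneous.add ?_ (isWeightedHomogeneous_one _ _)
      split_ifs
      · exact isWeightedHomogeneous_one _ _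
      · exact isWeightedHomogeneous_zero _ _ _

end Pool.Agent.Lib.MP_a29b63_ag
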