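import Pool.Agent.Lib.MP_a29b63_ag.Defs

/-! OI- and FI-ideals of the polynomial algebra `P` and the quotient modules `P / I`. -/

namespace Pool.Agent.Lib.MP_a29b63_ag

universe u

/-- A family of ideals `I_n` of `P_n` is an OI-ideal (FI-ideal) if every morphism
`e : [m] → [n]` maps `I_m` into `I_n`. -/
def IsRepIdeal (K : Type u) [Field K] (c : ℕ) (C : IndexCat)
    (I : (n : ℕ) → Ideal (PolyP K c n)) : Prop :=
  ∀ (m n : ℕ) (e : Fin m → Fin n), C.IsHom e → ∀ p ∈ I m, polyMap K c e p ∈ I n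

/-- `M` is the quotient `P / I`: there are surjective `P_n`-linear maps `P_n → M_n` with kernel
`I_n` that commute with the maps induced by the morphisms. -/
def RepModule.IsQuotBy {K : Type u} [Field K] {c : ℕ} {C : IndexCat} (M : RepModule K c C)
    (I : (n : ℕ) → Ideal (PolyP K c n)) : Prop :=
  ∃ g : (n : ℕ) → PolyP K c n →ₗ[PolyP K c n] M.obj n,
    (∀ n, Function.Surjective (g n)) ∧ (∀ n p, g n p = 0 ↔ p ∈ I n) ∧
    ∀ (m n : ℕ) (e : Fin m → Fin n) (he : C.IsHom e) (p : PolyP K c m),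
      M.map e he (g m p) = g n (polyMap K c e p)

end Pool.Agent.Lib.MP_a29b63_ag
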