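import Pool.Agent.Lib.MP_a29b63_ag.IdealChain

/-! A module whose projective dimension detects primes. -/

namespace Pool.Agent.Lib.MP_a29b63_ag

universe u

open MvPolynomial CategoryTheory Finset

/-- The kernel. -/
def kp {R : Type u} [CommRing R] (x y : R) : R :=
  3 * (1 - x ^ 2) * (1 + 2 * y) + (4 * x - x ^ 2) * (2 * y ^ 2 - 1)

/-- The matrix. -/
def km {R : Type u} [CommRing R] {n : ℕ} (x : Fin n → R) (i j : Fin n) : R :=
  if i = j then 15 else kp (x i) (x j)

lemma map_km {R S : Type u} [CommRing R] [CommRing S] (φ : R →+* S) {n : ℕ} (x : Fin n → R)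
    (i j : Fin n) : φ (km x i j) = km (fun l => φ (x l)) i j := by
  simp only [km, kp]
  split_ifs <;> simp [map_ofNat]

lemma km_sum {R : Type u} [CommRing R] {n : ℕ} (x v : Fin n → R) (i : Fin n) :
    ∑ j, km x i j * v j = (15 - kp (x i) (x i)) * v i +
      3 * (1 - x i ^ 2) * ∑ j, (1 + 2 * x j) * v j +
      (4 * x i - x i ^ 2) * ∑ j, (2 * x j ^ 2 - 1) * v j := by
  have : ∀ j, km x i j * v j = (if i = j then (15 - kp (x i) (x i)) * v i else 0) +
      3 * (1 - x i ^ 2) * ((1 + 2 * x j) * v j) +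
      (4 * x i - x i ^ 2) * ((2 * x j ^ 2 - 1) * v j) := fun j => by
    unfold km kp
    split_ifs with h
    · subst h
      ring
    · ring
  simp only [this, sum_add_distrib, sum_ite_eq, mem_univ, if_true, ← mul_sum]

lemma km_det {F : Type u} [Field F] [CharZero F] {n : ℕ} (hn : n.Prime) {x : Fin n → F}
    (hx : ∀ j, x j ^ 3 - x j = 0) : (Matrix.of (km x)).det ≠ 0 := by
  intro h
  obtain ⟨v, v0, hv⟩ := Matrix.exists_mulVec_eq_zero_iff.2 h
  have h1 : ∀ j, ∃ l : Fin 3, x j = ![0, 1, -1] l := fun j => by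
    have : x j * (x j - 1) * (x j + 1) = 0 := by linear_combination hx j
    rcases mul_eq_zero.1 this with e | e
    · rcases mul_eq_zero.1 e with e | e
      exacts [⟨0, e⟩, ⟨1, sub_eq_zero.1 e⟩]
    · exact ⟨2, eq_neg_of_add_eq_zero_left e⟩
  choose l hl using h1
  obtain ⟨m, hm⟩ : ∃ m : Fin 3 → ℕ, ∀ g : F → F,
      ∑ j, g (x j) = m 0 * g 0 + m 1 * g 1 + m 2 * g (-1) :=
    ⟨fun k => #{j | l j = k}, fun g => by
      simp only [hl]
      rw [← sum_fiberwise' univ l fun k => g (![0, 1, -1] k), Fin.sum_univ_three]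
      simp⟩
  obtain ⟨a, ha⟩ : ∃ a, a = ∑ j, (1 + 2 * x j) * v j := ⟨_, rfl⟩
  obtain ⟨b, hb⟩ : ∃ b, b = ∑ j, (2 * x j ^ 2 - 1) * v j := ⟨_, rfl⟩
  have h2 : ∀ i, v i = (-(1 - x i ^ 2) * a - x i * b) / 4 := fun i => by
    have := (km_sum x v i).symm.trans (congrFun hv i)
    rw [← ha, ← hb, Pi.zero_apply, kp] at this
    rw [hl] at this ⊢
    generalize l i = k at this ⊢
    fin_cases k <;> simp at this ⊢
    · linear_combination this / 12
    · linear_combination this / 12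
    · linear_combination this / 20
  have e1 := hm fun t => (1 + 2 * t) * ((-(1 - t ^ 2) * a - t * b) / 4)
  have e2 := hm fun t => (2 * t ^ 2 - 1) * ((-(1 - t ^ 2) * a - t * b) / 4)
  have e3 := hm fun _ => 1
  simp only [← h2, ← ha, ← hb] at e1 e2
  have e4 : (n : F) - (m 0 + 2) * (m 1 + 2) ≠ 0 := fun e => by
    have : n = (m 0 + 2) * (m 1 + 2) := by exact_mod_cast sub_eq_zero.1 e
    exact Nat.not_prime_of_mul_eq this.symm (by omega) (by omega) hn
  simp only [sum_const, card_univ, Fintype.card_fin, nsmul_eq_mul, mul_one] at e3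
  have b0 : b = 0 := (mul_eq_zero.1 (show ((n : F) - (m 0 + 2) * (m 1 + 2)) * b = 0 by
    linear_combination b * e3 - m 0 * e1 - (4 + m 0) * e2)).resolve_left e4
  have a0 : a = 0 := (mul_eq_zero.1 (show ((m 0 + 4 : ℕ) : F) * a = 0 by
    rw [b0] at e1
    push_cast
    linear_combination 4 * e1)).resolve_left (Nat.cast_ne_zero.2 (by omega))
  exact v0 (funext fun i => by simp [h2 i, a0, b0])

lemma km_unit (K : Type u) [Field K] [CharZero K] {R : Type u} [CommRing R] [Algebra K R] {n : ℕ}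
    (hn : n.Prime) {x : Fin n → R} (hx : ∀ j, x j ^ 3 - x j = 0) : IsUnit (Matrix.of (km x)) := by
  rw [Matrix.isUnit_iff_isUnit_det]
  by_contra h0
  obtain ⟨𝔪, h1, h2⟩ := exists_max_ideal_of_mem_nonunits h0
  let _ := Ideal.Quotient.field 𝔪
  have := charZero_of_injective_algebraMap (algebraMap K (R ⧸ 𝔪)).injective
  refine km_det hn (x := fun j => Ideal.Quotient.mk 𝔪 (x j)) (fun j => ?_) ?_
  · rw [← map_pow, ← map_sub, hx, map_zero]
  · rw [← Ideal.Quotient.eq_zero_iff_mem.2 h2, RingHom.map_det]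
    exact congrArg _ (Matrix.ext fun i j => (map_km _ _ i j).symm)

variable {K : Type u} [Field K] {c : ℕ}

/-- The data. -/
noncomputable def dataPr (K : Type u) [Field K] {c : ℕ} (o : Fin c) (C : IndexCat) :
    Data K c C where
  o := o
  f := Polynomial.X ^ 3 - Polynomial.X
  monic := by monicity!
  s n := km fun j => X (o, j)
  s_map e he i j := by
    simp only [km, he.inj.eq_iff, kp]
    split_ifs <;> simp [polyMap_X, map_ofNat]

lemma dataPr_mem (o : Fin c) (C : IndexCat) (n : ℕ) (j : Fin n) :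
    (X (o, j) ^ 3 - X (o, j) : PolyP K c n) ∈ (dataPr K o C).I n := by
  have := mem_idl ((dataPr K o C).r n) (mem_univ (o, j))
  rwa [show (dataPr K o C).r n (o, j) = X (o, j) ^ 3 - X (o, j) by
    simp [Data.r, gen, Data.F, dataPr]] at this

lemma dataPr_pd [CharZero K] (o : Fin c) (C : IndexCat) (n : ℕ) (hn : 2 ≤ n) :
    projectiveDimension ((dataPr K o C).M.obj n) =
      ((if n.Prime then c * n - 1 else c * n : ℕ) : WithBot ℕ∞) := by
  split_ifs with h
  · refine (dataPr K o C).pd_of_isUnit (by omega) 0 (by simp [dataPr]) ?_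
    rw [show (Matrix.of ((dataPr K o C).s n)).map (Ideal.Quotient.mk ((dataPr K o C).I n)) =
      Matrix.of (km fun j => Ideal.Quotient.mk _ (X (o, j))) from
        Matrix.ext fun i j => map_km (Ideal.Quotient.mk _) (fun j => X (o, j)) i j]
    exact km_unit K h fun j => by
      rw [← map_pow, ← map_sub, Ideal.Quotient.eq_zero_iff_mem.2 (dataPr_mem o C n j)]
  obtain ⟨p, q, r, rfl, hr⟩ : ∃ p q r, n = p + q + (r + 1) ∧ r = 3 + p + q + p * q := by
    obtain ⟨a, b, ha, hb, rfl⟩ := (Nat.not_prime_iff_exists_mul_eq hn).1 h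
    obtain ⟨p, rfl⟩ : ∃ p, a = p + 2 := ⟨a - 2, by
      rcases a with _ | _ | a <;> omega⟩
    obtain ⟨q, rfl⟩ : ∃ q, b = q + 2 := ⟨b - 2, by
      rcases b with _ | _ | b <;> omega⟩
    exact ⟨p, q, _, by ring, rfl⟩
  obtain ⟨a, ha⟩ : ∃ a : Fin (p + q + (r + 1)) → K,
    a = Fin.append (Fin.append (fun _ => 0) fun _ => 1) fun _ => -1 := ⟨_, rfl⟩
  have a1 : ∀ g : K → K, ∑ j, g (a j) = p * g 0 + q * g 1 + (r + 1) * g (-1) := fun g => by
    simp [ha, Fin.sum_univ_add]
  have a2 : ∀ j, a j = 0 ∨ a j = 1 ∨ a j = -1 := fun j => by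
    refine Fin.addCases (fun j => Fin.addCases (fun j => ?_) (fun j => ?_) j) (fun j => ?_) j <;>
      simp [ha]
  have a3 : ∀ j, a j ^ 3 - a j = 0 := fun j => by rcases a2 j with e | e | e <;> rw [e] <;> ring
  have a4 : ∀ j, 3 * a j ^ 2 - 1 ≠ 0 := fun j => by
    rcases a2 j with e | e | e <;> rw [e] <;> norm_num
  have hpt : ∀ j, (dataPr K o C).pt a (o, j) = a j := fun j => by simp [Data.pt, dataPr]
  refine (dataPr K o C).pd_of_singular a (fun j => by simpa [dataPr] using a3 j)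
    (fun j => (1 - a j ^ 2) * (1 + q) - a j) (Fin.natAdd _ 0) (by simp [ha]) (fun i => ?_)
    (∏ j, MvPolynomial.C (3 * a j ^ 2 - 1)⁻¹ *
      (X (o, j) ^ 2 + MvPolynomial.C (a j) * X (o, j) + MvPolynomial.C (a j) ^ 2 - 1)) ?_ fun j => ?_
  · simp only [show (dataPr K o C).s _ = km fun j => X (o, j) from rfl, map_km, eval_X, hpt]
    rw [km_sum, a1 fun t => (1 + 2 * t) * ((1 - t ^ 2) * (1 + q) - t),
      a1 fun t => (2 * t ^ 2 - 1) * ((1 - t ^ 2) * (1 + q) - t), hr, kp]
    push_cast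
    rcases a2 i with e | e | e <;> rw [e] <;> ring
  · rw [map_prod]
    refine prod_eq_one fun j _ => ?_
    simp only [map_mul, map_add, map_sub, map_pow, eval_C, map_one, eval_X, hpt]
    rw [inv_mul_eq_one₀ (a4 j)]
    ring
  · rw [← mul_prod_erase _ _ (mem_univ j), ← mul_assoc]
    refine Ideal.mul_mem_right _ _ ?_
    have h4 : (MvPolynomial.C (a j) : PolyP K c (p + q + (r + 1))) ^ 3 -
        MvPolynomial.C (a j) = 0 := by
      rw [← map_pow, ← map_sub, a3, map_zero]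
    convert Ideal.mul_mem_left _ (MvPolynomial.C (3 * a j ^ 2 - 1)⁻¹) (dataPr_mem o C _ j) using 1
    change (X (o, j) - _) * _ = _
    linear_combination -MvPolynomial.C (3 * a j ^ 2 - 1)⁻¹ * h4

lemma dataPr_gen [CharZero K] (o : Fin c) (C : IndexCat) (n : ℕ) : (dataPr K o C).Gen n :=
  fun i => ⟨i, MvPolynomial.C 15⁻¹, by
    rw [show (dataPr K o C).s n i i = MvPolynomial.C 15 by simp [dataPr, km, map_ofNat], ← map_mul,
      inv_mul_cancel₀ (by norm_num), map_one, sub_self]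
    exact zero_mem _⟩

theorem main_prime (K : Type u) [Field K] [CharZero K] (c : ℕ) (hc : 1 ≤ c) (C : IndexCat) :
    ∃ M : RepModule K c C, M.FG ∧ (2 ≤ c → ∃ I, IsRepIdeal K c C I ∧ M.IsQuotBy I) ∧
      ∀ n : ℕ, 2 ≤ n → projectiveDimension (M.obj n) =
        ((if n.Prime then c * n - 1 else c * n : ℕ) : WithBot ℕ∞) := by
  rcases hc.eq_or_lt with rfl | h
  · exact ⟨(dataPr K 0 C).M, Data.M_FG _, fun h => by omega, dataPr_pd 0 C⟩
  let D := dataPr K (⟨0, hc⟩ : Fin c) C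
  refine ⟨quotModule _ (D.Id_rep ⟨1, h⟩), quotModule_FG _ _,
    fun _ => ⟨_, D.Id_rep _, quotModule_isQuotBy _ _⟩, fun n hn =>
      D.pd_Id (by simp [D, dataPr]) (dataPr_gen _ C n) _ ?_ (dataPr_pd _ C n hn)⟩
  have : 2 * n ≤ c * n := Nat.mul_le_mul_right n h
  split_ifs <;> omega

end Pool.Agent.Lib.MP_a29b63_ag
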